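import Pool.Agent.H400R3.Roe.Params

/-!
# There is no uniformly finite-to-one coarse map from the combs to their double covers
-/

set_option autoImplicit false

namespace Pool.Agent.H400R3.Roe

/-- the base space -/
abbrev XX := Pt Ln ht

/-- the double cover -/
abbrev YY := Pt (fun n => 2 * Ln n) ht2

/-- a point on the spine -/
def spine (n a : ℕ) (ha : a < Ln n) : XX := ⟨n, a, 0, ha, Nat.zero_le _⟩

section rigid

variable (f : XX → YY) (Lc : ℕ) (hL : ∀ x x' : XX, D t x x' ≤ 1 → D t (f x) (f x') ≤ Lc)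

include hL

lemma spine_step (n a k : ℕ) (ha : a + k < Ln n) :
    D t (f (spine n a (by omega))) (f (spine n (a + k) ha)) ≤ Lc * k := by
  induction k with
  | zero => simp [D_self]
  | succ k ih =>
    have h1 := ih (by omega)
    have h2 : D t (spine n (a + k) (by omega)) (spine n (a + (k + 1)) ha) ≤ 1 := by
      simp only [D, spine, if_true, cd]
      rw [if_neg (by omega)]
      unfold cyc
      omega
    have h3 := hL _ _ h2
    have h4 := D_tri (Θ := t) (f (spine n a (by omega))) (f (spine n (a + k) (by omega)))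
      (f (spine n (a + (k + 1)) ha))
    calc _ ≤ _ := h4
      _ ≤ Lc * k + Lc := add_le_add h1 h3
      _ = Lc * (k + 1) := by ring

lemma wrap_step (n : ℕ) : D t (f (spine n (Ln n - 1) (by have := Ln_pos n; omega)))
    (f (spine n 0 (Ln_pos n))) ≤ Lc := by
  apply hL
  have := Ln_pos n
  simp only [D, spine, if_true, cd]
  split_ifs
  · omega
  · unfold cyc; omega

lemma tooth_step (n a b : ℕ) (ha : a < Ln n) (hb : b ≤ ht n a) :
    D t (f (spine n a ha)) (f ⟨n, a, b, ha, hb⟩) ≤ Lc * b := by
  induction b with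
  | zero => simp [spine, D_self]
  | succ b ih =>
    have h1 := ih (by omega)
    have h2 : D t (⟨n, a, b, ha, by omega⟩ : XX) (⟨n, a, b + 1, ha, hb⟩ : XX) ≤ 1 := by
      simp only [D, if_true, cd]
      omega
    have h3 := hL _ _ h2
    have h4 := D_tri (Θ := t) (f (spine n a ha)) (f ⟨n, a, b, ha, by omega⟩)
      (f ⟨n, a, b + 1, ha, hb⟩)
    calc _ ≤ _ := h4
      _ ≤ Lc * b + Lc := add_le_add h1 h3
      _ = Lc * (b + 1) := by ring

omit hL in
/-- two large teeth in a common window coincide -/
lemma teeth_eq {m a a' R : ℕ} (hR : ∀ j ≤ m, 2 * R + A m j < t m)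
    (ha : a < 2 * Ln m) (ha' : a' < 2 * Ln m) (h : cyc (2 * Ln m) a a' ≤ 2 * R)
    (h1 : 1 ≤ ht2 m a) (h1' : 1 ≤ ht2 m a') (hs : 2 * R < sp m (a / t m % (m + 1))) : a = a' := by
  obtain ⟨d1, d2, -⟩ := tooth h1
  obtain ⟨d1', d2', -⟩ := tooth h1'
  have hj : a / t m % (m + 1) ≤ m := Nat.lt_succ_iff.1 (Nat.mod_lt _ (by omega))
  have hj' : a' / t m % (m + 1) ≤ m := Nat.lt_succ_iff.1 (Nat.mod_lt _ (by omega))
  have e1 := Nat.div_add_mod a (t m)
  have e2 := Nat.div_add_mod a' (t m)
  have tp := t_pos m
  have hR1 := hR _ hj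
  have hR2 := hR _ hj'
  set q := a / t m
  set q' := a' / t m
  set r := a % t m
  set r' := a' % t m
  have hq : q < 2 * (m + 1) := by
    rw [Nat.div_lt_iff_lt_mul tp]
    unfold Ln at ha
    nlinarith
  have hq' : q' < 2 * (m + 1) := by
    rw [Nat.div_lt_iff_lt_mul tp]
    unfold Ln at ha'
    nlinarith
  have hL2 : 2 * Ln m = t m * (2 * (m + 1)) := by unfold Ln; ring
  rcases lt_trichotomy q q' with hlt | heq | hgt
  · exfalso
    have k1 : t m * q + t m ≤ t m * q' := by nlinarith
    have k2 : t m * q' + t m ≤ t m * (2 * (m + 1)) := by nlinarith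
    rw [← hL2] at k2
    unfold cyc at h
    omega
  · rw [← heq] at e2 d1' d2'
    -- both remainders are divisible by the spacing
    have hrr : r = r' := by
      by_contra hne
      have h2 : r + 2 * R < r' ∨ r' + 2 * R < r := by
        rcases lt_or_gt_of_ne hne with h3 | h3
        · left
          obtain ⟨k, hk⟩ := (Nat.dvd_sub d1' d1)
          have : 0 < k := by
            rcases Nat.eq_zero_or_pos k with h4 | h4
            · rw [h4, mul_zero] at hk; omega
            · exact h4
          have h5 : sp m (q % (m + 1)) * 1 ≤ sp m (q % (m + 1)) * k := Nat.mul_le_mul_left _ this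
          omega
        · right
          obtain ⟨k, hk⟩ := (Nat.dvd_sub d1 d1')
          have : 0 < k := by
            rcases Nat.eq_zero_or_pos k with h4 | h4
            · rw [h4, mul_zero] at hk; omega
            · exact h4
          have h5 : sp m (q % (m + 1)) * 1 ≤ sp m (q % (m + 1)) * k := Nat.mul_le_mul_left _ this
          omega
      have k3 : t m * q + t m ≤ t m * (2 * (m + 1)) := by nlinarith
      rw [← hL2] at k3
      have hr1 : r ≤ A m (q % (m + 1)) := d2
      have hr2 : r' ≤ A m (q % (m + 1)) := d2'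
      have k4 : t m ≤ Ln m := by unfold Ln; nlinarith
      unfold cyc at h
      omega
    rw [← e1, ← e2, hrr]
  · exfalso
    have k1 : t m * q' + t m ≤ t m * q := by nlinarith
    have k2 : t m * q + t m ≤ t m * (2 * (m + 1)) := by nlinarith
    rw [← hL2] at k2
    unfold cyc at h
    omega

/-- The image of the base point of a cluster is near a copy of the same cluster. -/
lemma near_cluster {M : ℕ} (hM : ∀ y, (f ⁻¹' {y}).Finite ∧ (f ⁻¹' {y}).ncard ≤ M) {n i : ℕ}
    (hi : i ≤ n) (hnL : Lc ≤ n) (hn1 : 1 ≤ n) (hn : M * (14 * Lc + 4) ≤ n) :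
    ∃ α β a' : ℕ, ∃ (h1 : α < 2 * Ln n) (h2 : β ≤ ht2 n α),
      f (spine n (i * t n) (by simpa using cluster_lt (u := 0) hi (by omega))) =
        ⟨n, α, β, h1, h2⟩ ∧
      a' < 2 * Ln n ∧ cyc (2 * Ln n) α a' ≤ 2 * A n i * Lc ∧ a' / t n % (n + 1) = i ∧
        a' % t n ≤ A n i := by
  classical
  set q : XX := spine n (i * t n) (by simpa using cluster_lt (u := 0) hi (by omega)) with hq
  set R := 2 * A n i * Lc with hR
  set y0 := f q with hy0
  have hspos := sp_pos n i
  have hApos : 1 ≤ A n i := Nat.mul_pos (by omega) hspos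
  -- size estimates
  have hRbd : R ≤ 2 * (n + 1) * A n i := by
    rw [hR]
    have : Lc ≤ n + 1 := by omega
    nlinarith
  have hsq : (n + 1) ≤ (n + 1) ^ 2 := Nat.le_self_pow (by norm_num) _
  have hRt : ∀ m, n ≤ m → ∀ j ≤ m, 2 * R + A m j < t m := by
    intro m hm j hj
    have k1 := A_lt_t (n := n) (i := i) hi
    have k2 := A_lt_t (n := m) (i := j) hj
    have k3 := t_mono hm
    have k4 : (n + 1) * A n i ≤ (n + 1) ^ 2 * A n i := Nat.mul_le_mul_right _ hsq
    have k5 : A m j ≤ (m + 1) ^ 2 * A m j := Nat.le_mul_of_pos_left _ (by positivity)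
    have k6 : 0 < (n + 1) ^ 2 := by positivity
    nlinarith
  have hRs : ∀ m j, (n < m ∨ (n = m ∧ i < j)) → 2 * R < sp m j := by
    intro m j h
    have k1 := sp_lt_sp (n := n) (i := i) (m := m) (j := j) hi h
    have k4 : (n + 1) * A n i ≤ (n + 1) ^ 2 * A n i := Nat.mul_le_mul_right _ hsq
    nlinarith
  have hRt' : R < t n := by
    have := hRt n le_rfl i hi
    omega
  -- the cluster
  let emb : Fin (n + 1) × Fin (A n i + 1) → XX := fun p =>
    ⟨n, i * t n + p.1 * sp n i, p.2, cluster_lt hi (by omega),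
      by rw [ht_cluster hi (by omega)]; omega⟩
  have hemb : Function.Injective emb := by
    intro p p' h
    simp only [emb, Pt.mk.injEq] at h
    obtain ⟨-, h2, h3⟩ := h
    have h4 : (p.1 : ℕ) * sp n i = p'.1 * sp n i := by omega
    have h5 := Nat.eq_of_mul_eq_mul_right hspos h4
    exact Prod.ext (Fin.ext h5) (Fin.ext h3)
  have hball : ∀ p, D t y0 (f (emb p)) ≤ R := by
    intro p
    have k1 := spine_step f Lc hL n (i * t n) (p.1 * sp n i) (cluster_lt hi (by omega))
    have k2 := tooth_step f Lc hL n (i * t n + p.1 * sp n i) p.2 (cluster_lt hi (by omega))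
      (by rw [ht_cluster hi (by omega)]; omega)
    have k3 := D_tri (Θ := t) y0 (f (spine n (i * t n + p.1 * sp n i) (cluster_lt hi (by omega))))
      (f (emb p))
    have k4 : (p.1 : ℕ) * sp n i ≤ A n i := Nat.mul_le_mul_right _ (by omega)
    have k5 : (p.2 : ℕ) ≤ A n i := by omega
    have k6 : Lc * (p.1 * sp n i) ≤ Lc * A n i := Nat.mul_le_mul_left _ k4
    have k7 : Lc * (p.2 : ℕ) ≤ Lc * A n i := Nat.mul_le_mul_left _ k5
    have k8 : R = Lc * A n i + Lc * A n i := by rw [hR]; ring
    rw [k8]
    exact k3.trans (add_le_add (k1.trans k6) (k2.trans k7))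
  -- if the image is contained in a small set of coordinates we get a contradiction
  have hcount : ∀ B : Finset (ℕ × ℕ × ℕ), (∀ y : YY, D t y0 y ≤ R → co y ∈ B) →
      (n + 1) * (A n i + 1) ≤ M * B.card := by
    intro B hB
    have k1 := Finset.card_le_mul_card_image (f := fun p => co (f (emb p)))
      (Finset.univ : Finset (Fin (n + 1) × Fin (A n i + 1))) M (by
        intro c hc
        obtain ⟨p0, -, hp0⟩ := Finset.mem_image.1 hc
        have k2 : ∀ p ∈ ({x ∈ (Finset.univ : Finset (Fin (n + 1) × Fin (A n i + 1))) |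
            co (f (emb x)) = c} : Finset _), emb p ∈ f ⁻¹' {f (emb p0)} := by
          intro p hp
          rw [Finset.mem_filter] at hp
          exact co_inj (hp.2.trans hp0.symm)
        have k3 := Set.ncard_le_ncard_of_injOn emb (s := (({x ∈ (Finset.univ :
          Finset (Fin (n + 1) × Fin (A n i + 1))) | co (f (emb x)) = c} : Finset _) :
            Set (Fin (n + 1) × Fin (A n i + 1)))) (t := f ⁻¹' {f (emb p0)})
            (fun p hp => k2 p hp) hemb.injOn (hM _).1
        rw [Set.ncard_coe_finset] at k3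
        exact k3.trans (hM _).2)
    rw [Finset.card_univ, Fintype.card_prod, Fintype.card_fin, Fintype.card_fin] at k1
    refine k1.trans (Nat.mul_le_mul_left _ (Finset.card_le_card ?_))
    intro c hc
    obtain ⟨p, -, rfl⟩ := Finset.mem_image.1 hc
    exact hB _ (hball p)
  have hfin : ∀ B : Finset (ℕ × ℕ × ℕ), B.card ≤ sp n i + (7 * R + 3) →
      ¬ (∀ y : YY, D t y0 y ≤ R → co y ∈ B) := by
    intro B hBc hB
    have k1 := hcount B hB
    have k2 : sp n i ≤ A n i := Nat.le_mul_of_pos_left _ (by omega)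
    have k3 : B.card ≤ (14 * Lc + 4) * A n i := by
      have k5 : 7 * R = 14 * Lc * A n i := by rw [hR]; ring
      have : (14 * Lc + 4) * A n i = 14 * Lc * A n i + 4 * A n i := by ring
      omega
    have k4 : M * B.card ≤ n * A n i := by
      calc M * B.card ≤ M * ((14 * Lc + 4) * A n i) := Nat.mul_le_mul_left _ k3
        _ = M * (14 * Lc + 4) * A n i := by ring
        _ ≤ n * A n i := Nat.mul_le_mul_right _ hn
    nlinarith
  rcases hy : y0 with ⟨m, α, β, hα, hβ⟩
  rcases lt_or_ge m n with hmn | hmn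
  · -- small component
    exfalso
    refine hfin (Small n i) ((card_Small hn1 hi).trans (by omega)) ?_
    rintro ⟨m', a', b', ha', hb'⟩ hD
    rw [hy] at hD
    have hm' : m' < n := by
      by_contra hcon
      have h1 := t_mono (not_lt.1 hcon)
      simp only [D] at hD
      rw [if_neg (by omega)] at hD
      omega
    have hb2 := hb'.trans (ht2_le_t m' a')
    simp only [co, Small, Finset.mem_union, Finset.mem_biUnion, Finset.mem_range,
      Finset.mem_product, Finset.mem_singleton]
    left
    exact ⟨m', hm', rfl, ha', by omega⟩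
  -- the component is `m ≥ n`
  have hsame : ∀ y : YY, D t y0 y ≤ R → y.n = m := by
    rintro ⟨m', a', b', ha', hb'⟩ hD
    rw [hy] at hD
    by_contra hne
    simp only [D] at hD
    rw [if_neg (fun h => hne h.symm)] at hD
    have := t_mono hmn
    omega
  by_contra hcon
  -- no tooth of the `i`-th cluster of component `n` in the window
  have hno : ∀ a' < 2 * Ln m, cyc (2 * Ln m) α a' ≤ R → 1 ≤ ht2 m a' →
      (n < m ∨ (n = m ∧ i < a' / t m % (m + 1))) ∨ (n = m ∧ a' / t m % (m + 1) < i) := by
    intro a' ha' hc hh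
    rcases eq_or_lt_of_le hmn with rfl | hlt
    · rcases lt_trichotomy (a' / t n % (n + 1)) i with h | h | h
      · exact Or.inr ⟨rfl, h⟩
      · exfalso
        apply hcon
        obtain ⟨-, d2, -⟩ := tooth hh
        rw [h] at d2
        exact ⟨α, β, a', hα, hβ, hy, ha', hc, h, d2⟩
      · exact Or.inl (Or.inr ⟨rfl, h⟩)
    · exact Or.inl (Or.inl hlt)
  -- choose the unique large tooth
  obtain ⟨astar, hstar⟩ : ∃ astar, ∀ a' < 2 * Ln m, cyc (2 * Ln m) α a' ≤ R → 1 ≤ ht2 m a' →
      (n < m ∨ (n = m ∧ i < a' / t m % (m + 1))) → a' = astar := by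
    by_cases hex : ∃ a1 < 2 * Ln m, cyc (2 * Ln m) α a1 ≤ R ∧ 1 ≤ ht2 m a1 ∧
      (n < m ∨ (n = m ∧ i < a1 / t m % (m + 1)))
    · obtain ⟨a1, h1, h2, h3, h4⟩ := hex
      refine ⟨a1, fun a' h1' h2' h3' h4' => ?_⟩
      refine teeth_eq (hRt m hmn) h1' h1 ?_ h3' h3 (hRs _ _ h4')
      have := cyc_tri h1' hα h1
      rw [cyc_comm _ a' α] at this
      omega
    · push Not at hex
      refine ⟨0, fun a' h1' h2' h3' h4' => ?_⟩
      exfalso
      obtain ⟨h5, h6⟩ := hex a' h1' h2' h3'
      rcases h4' with h | h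
      · omega
      · have := h6 h.1
        omega
  -- the covering set
  let B : Finset (ℕ × ℕ × ℕ) := Small n i ∪
    (({m} : Finset ℕ) ×ˢ (({α} : Finset ℕ) ×ˢ Finset.Icc (β - R) (β + R)) ∪
    (({m} : Finset ℕ) ×ˢ (near (2 * Ln m) α R ×ˢ ({0} : Finset ℕ)) ∪
    ({m} : Finset ℕ) ×ˢ (({astar} : Finset ℕ) ×ˢ Finset.range (R + 1))))
  refine hfin B ?_ ?_
  · have c0 := card_Small hn1 hi
    have c1 : (({m} : Finset ℕ) ×ˢ (({α} : Finset ℕ) ×ˢ Finset.Icc (β - R) (β + R))).card ≤
        2 * R + 1 := by
      simp only [Finset.card_product, Finset.card_singleton, Nat.card_Icc, one_mul]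
      omega
    have c2 : (({m} : Finset ℕ) ×ˢ (near (2 * Ln m) α R ×ˢ ({0} : Finset ℕ))).card ≤
        4 * R + 1 := by
      simp only [Finset.card_product, Finset.card_singleton, one_mul, mul_one]
      exact card_near _ _ _
    have c3 : (({m} : Finset ℕ) ×ˢ (({astar} : Finset ℕ) ×ˢ Finset.range (R + 1))).card ≤
        R + 1 := by
      simp only [Finset.card_product, Finset.card_singleton, Finset.card_range, one_mul]
      exact le_rfl
    have u1 := Finset.card_union_le (({m} : Finset ℕ) ×ˢ (near (2 * Ln m) α R ×ˢ ({0} : Finset ℕ)))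
      (({m} : Finset ℕ) ×ˢ (({astar} : Finset ℕ) ×ˢ Finset.range (R + 1)))
    have u2 := Finset.card_union_le (({m} : Finset ℕ) ×ˢ (({α} : Finset ℕ) ×ˢ
      Finset.Icc (β - R) (β + R))) ((({m} : Finset ℕ) ×ˢ (near (2 * Ln m) α R ×ˢ
        ({0} : Finset ℕ)) ∪
      ({m} : Finset ℕ) ×ˢ (({astar} : Finset ℕ) ×ˢ Finset.range (R + 1))))
    have u3 := Finset.card_union_le (Small n i) ((({m} : Finset ℕ) ×ˢ (({α} : Finset ℕ) ×ˢ
      Finset.Icc (β - R) (β + R)) ∪ (({m} : Finset ℕ) ×ˢ (near (2 * Ln m) α R ×ˢ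
        ({0} : Finset ℕ)) ∪
      ({m} : Finset ℕ) ×ˢ (({astar} : Finset ℕ) ×ˢ Finset.range (R + 1)))))
    show (Small n i ∪ _).card ≤ _
    omega
  · intro y hD
    have hym := hsame y hD
    obtain ⟨m', a', b', ha', hb'⟩ := y
    simp only at hym
    subst hym
    rw [hy] at hD
    simp only [D, if_true] at hD
    have hc := (cyc_le_cd (N := 2 * Ln m') (a := α) (b := β) (a' := a') (b' := b')).trans hD
    simp only [B, co, Finset.mem_union, Finset.mem_product, Finset.mem_singleton,
      Finset.mem_Icc, Finset.mem_range, true_and]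
    by_cases haα : a' = α
    · right; left
      subst haα
      unfold cd at hD
      rw [if_pos rfl] at hD
      exact ⟨rfl, by omega, by omega⟩
    · have hD2 := hD
      unfold cd at hD2
      rw [if_neg (fun h => haα h.symm)] at hD2
      rcases Nat.eq_zero_or_pos b' with hb0 | hb0
      · right; right; left
        exact ⟨mem_near hα ha' hc, hb0⟩
      · have hh : 1 ≤ ht2 m' a' := le_trans hb0 hb'
        rcases hno a' ha' hc hh with h | h
        · right; right; right
          exact ⟨hstar a' ha' hc hh h, by omega⟩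
        · left
          obtain ⟨rfl, h⟩ := h
          obtain ⟨-, d2, d3⟩ := tooth hh
          simp only [Small, Finset.mem_union, Finset.mem_biUnion, Finset.mem_range,
            Finset.mem_product, Finset.mem_singleton, Finset.mem_Icc]
          right
          refine ⟨a' / t n % (n + 1), h, trivial, ?_, by omega⟩
          have e1 := Nat.div_add_mod a' (t n)
          have hq2 : a' / t n < 2 * (n + 1) := by
            rw [Nat.div_lt_iff_lt_mul (t_pos n)]
            have h5 : 2 * Ln n = 2 * (n + 1) * t n := by unfold Ln; ring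
            rw [← h5]; exact ha'
          have hL1 : Ln n = (n + 1) * t n := rfl
          rcases lt_or_ge (a' / t n) (n + 1) with h6 | h6
          · left
            rw [Nat.mod_eq_of_lt h6] at d2 ⊢
            rw [mul_comm]
            omega
          · right
            have h7 : a' / t n % (n + 1) = a' / t n - (n + 1) := by
              rw [Nat.mod_eq_sub_mod h6, Nat.mod_eq_of_lt (by omega)]
            rw [h7] at d2 ⊢
            have h8 : (a' / t n - (n + 1)) * t n + Ln n = t n * (a' / t n) := by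
              rw [hL1, ← Nat.add_mul, Nat.sub_add_cancel h6, mul_comm]
            omega

end rigid

end Pool.Agent.H400R3.Roe
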