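import Pool.Agent.H400R3.Roe.PQ
import Pool.Agent.H400R3.Roe.Rigid

/-!
# The double cover and its trivialisation
-/

set_option autoImplicit false

namespace Pool.Agent.H400R3.Roe

/-- the sheets -/
def sh (j : Bool) (x : XX) : YY :=
  ⟨x.n, x.a + (if j then Ln x.n else 0), x.b, by
    have := x.ha
    split_ifs <;> omega, by
    have h := x.hb
    unfold ht2
    have h1 : (x.a + (if j then Ln x.n else 0)) % Ln x.n = x.a := by
      split_ifs
      · rw [Nat.add_mod_right, Nat.mod_eq_of_lt x.ha]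
      · rw [add_zero, Nat.mod_eq_of_lt x.ha]
    rw [h1]; exact h⟩

theorem sh_inj (j : Bool) : Function.Injective (sh j) := by
  intro x x' h
  obtain ⟨n, a, b, ha, hb⟩ := x
  obtain ⟨n', a', b', ha', hb'⟩ := x'
  simp only [sh, Pt.mk.injEq] at h
  obtain ⟨h1, h2, h3⟩ := h
  subst h1
  simp only [Pt.mk.injEq, true_and]
  exact ⟨by omega, h3⟩

theorem sh_disj (x x' : XX) : sh false x ≠ sh true x' := by
  intro h
  obtain ⟨n, a, b, ha, hb⟩ := x
  obtain ⟨n', a', b', ha', hb'⟩ := x'
  simp only [sh, Pt.mk.injEq, Bool.false_eq_true, if_false, if_true] at h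
  obtain ⟨h1, h2, h3⟩ := h
  subst h1
  omega

theorem sh_cov (y : YY) : ∃ j x, sh j x = y := by
  obtain ⟨n, a, b, ha, hb⟩ := y
  have ha' : a < 2 * Ln n := ha
  have hb' : b ≤ ht n (a % Ln n) := hb
  by_cases h : a < Ln n
  · refine ⟨false, ⟨n, a, b, h, ?_⟩, ?_⟩
    · rwa [Nat.mod_eq_of_lt h] at hb'
    · simp [sh]
  · refine ⟨true, ⟨n, a - Ln n, b, by omega, ?_⟩, ?_⟩
    · rwa [Nat.mod_eq_sub_mod (by omega), Nat.mod_eq_of_lt (by omega)] at hb'
    · simp only [sh, if_true, Pt.mk.injEq, true_and, and_true]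
      omega

/-- the phase -/
noncomputable def zz (x : XX) : ℂ :=
  Complex.exp (Complex.I * ((Real.pi * x.a / Ln x.n : ℝ) : ℂ))

theorem zz_norm (x : XX) : ‖zz x‖ = 1 := by
  unfold zz
  rw [mul_comm]
  exact Complex.norm_exp_ofReal_mul_I _

theorem zz_conj (x : XX) : zz x * (starRingEnd ℂ) (zz x) = 1 := by
  rw [Complex.mul_conj, Complex.normSq_eq_norm_sq, zz_norm]
  norm_num

theorem zz_mul (x x' : XX) (h : x.n = x'.n) : zz x' * (starRingEnd ℂ) (zz x) =
    Complex.exp (Complex.I * ((Real.pi * ((x'.a : ℝ) - x.a) / Ln x.n : ℝ) : ℂ)) := by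
  unfold zz
  rw [← Complex.exp_conj, ← Complex.exp_add, map_mul, Complex.conj_I, Complex.conj_ofReal, ← h]
  congr 1
  push_cast
  ring

/-- the difference of positions -/
def dd (x x' : XX) : ℕ := (x.a - x'.a) + (x'.a - x.a)

/-- the sign of a pair -/
noncomputable def sgn (r : ℕ) (x x' : XX) : ℂ := if dd x x' ≤ r then 1 else -1

theorem cyc_le_D (x x' : XX) (h : x.n = x'.n) : cyc (Ln x.n) x.a x'.a ≤ D t x x' := by
  unfold D
  rw [if_pos h]
  exact cyc_le_cd

theorem phase_close (r : ℕ) (x x' : XX) (h : x.n = x'.n) (hD : D t x x' ≤ r) :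
    ‖zz x' * (starRingEnd ℂ) (zz x) - sgn r x x'‖ ≤ Real.pi * r / Ln x.n := by
  have hL : (0 : ℝ) < Ln x.n := by exact_mod_cast Ln_pos x.n
  rw [zz_mul x x' h]
  have h1 := (cyc_le_D x x' h).trans hD
  have ha := x.ha
  have ha' : x'.a < Ln x.n := by rw [h]; exact x'.ha
  have key : ∀ θ : ℝ, |θ| ≤ Real.pi * r / Ln x.n →
      ‖Complex.exp (Complex.I * (θ : ℂ)) - 1‖ ≤ Real.pi * r / Ln x.n := by
    intro θ hθ
    exact (Real.norm_exp_I_mul_ofReal_sub_one_le).trans (by rwa [Real.norm_eq_abs])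
  have habs : ∀ u : ℝ, |u| ≤ r → |Real.pi * u / Ln x.n| ≤ Real.pi * r / Ln x.n := by
    intro u hu
    rw [abs_div, abs_mul, abs_of_pos Real.pi_pos, abs_of_pos hL]
    have := Real.pi_pos
    gcongr
  have e3 : ∀ w : ℂ, ‖-w - -1‖ = ‖w - 1‖ := fun w => by
    rw [← norm_neg]; congr 1; ring
  unfold sgn
  split_ifs with hm
  · apply key
    apply habs
    unfold dd at hm
    rw [abs_le]
    constructor
    · have : (x.a : ℝ) ≤ x'.a + r := by exact_mod_cast (show x.a ≤ x'.a + r by omega)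
      linarith
    · have : (x'.a : ℝ) ≤ x.a + r := by exact_mod_cast (show x'.a ≤ x.a + r by omega)
      linarith
  · have hm2 : Ln x.n - dd x x' ≤ r := by
      unfold cyc at h1
      unfold dd at hm ⊢
      omega
    have hpi : Complex.exp (Complex.I * (Real.pi : ℂ)) = -1 := by
      rw [mul_comm]; exact Complex.exp_pi_mul_I
    rcases lt_trichotomy x.a x'.a with hlt | heq | hgt
    · have e1 : Complex.exp (Complex.I * ((Real.pi * ((x'.a : ℝ) - x.a) / Ln x.n : ℝ) : ℂ)) =
          -Complex.exp (Complex.I * ((Real.pi * (((x'.a : ℝ) - x.a) - Ln x.n) / Ln x.n : ℝ) : ℂ)) := by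
        have : ((Real.pi * ((x'.a : ℝ) - x.a) / Ln x.n : ℝ) : ℂ) = (Real.pi : ℂ) +
            ((Real.pi * (((x'.a : ℝ) - x.a) - Ln x.n) / Ln x.n : ℝ) : ℂ) := by
          rw [← Complex.ofReal_add]
          congr 1
          field_simp
          ring
        rw [this, mul_add, Complex.exp_add, hpi]
        ring
      rw [e1]
      have e2 := key (Real.pi * (((x'.a : ℝ) - x.a) - Ln x.n) / Ln x.n) (by
        apply habs
        unfold dd at hm2
        have h2 : (Ln x.n : ℝ) ≤ (x'.a - x.a) + r := by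
          have : Ln x.n + x.a ≤ x'.a + r := by omega
          have : (Ln x.n : ℝ) + x.a ≤ x'.a + r := by exact_mod_cast this
          linarith
        have h3 : (x'.a : ℝ) ≤ Ln x.n + x.a := by exact_mod_cast (show x'.a ≤ Ln x.n + x.a by omega)
        rw [abs_le]
        constructor <;> linarith [Nat.cast_nonneg (α := ℝ) r])
      rw [e3]
      exact e2
    · unfold dd at hm; omega
    · have e1 : Complex.exp (Complex.I * ((Real.pi * ((x'.a : ℝ) - x.a) / Ln x.n : ℝ) : ℂ)) =
          -Complex.exp (Complex.I * ((Real.pi * (((x'.a : ℝ) - x.a) + Ln x.n) / Ln x.n : ℝ) : ℂ)) := by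
        have : ((Real.pi * (((x'.a : ℝ) - x.a) + Ln x.n) / Ln x.n : ℝ) : ℂ) = (Real.pi : ℂ) +
            ((Real.pi * ((x'.a : ℝ) - x.a) / Ln x.n : ℝ) : ℂ) := by
          rw [← Complex.ofReal_add]
          congr 1
          field_simp
          ring
        rw [this, mul_add, Complex.exp_add, hpi]
        ring
      rw [e1]
      have e2 := key (Real.pi * (((x'.a : ℝ) - x.a) + Ln x.n) / Ln x.n) (by
        apply habs
        unfold dd at hm2
        have h2 : (Ln x.n : ℝ) ≤ (x.a - x'.a) + r := by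
          have : Ln x.n + x'.a ≤ x.a + r := by omega
          have : (Ln x.n : ℝ) + x'.a ≤ x.a + r := by exact_mod_cast this
          linarith
        have h3 : (x.a : ℝ) ≤ Ln x.n + x'.a := by exact_mod_cast (show x.a ≤ Ln x.n + x'.a by omega)
        rw [abs_le]
        constructor <;> linarith [Nat.cast_nonneg (α := ℝ) r])
      rw [e3]
      exact e2

/-- two points at small distance are either in the same large component or both in small ones -/
theorem same_or_small (r n0 : ℕ) (hn0 : r < n0) (x x' : XX) (hD : D t x x' ≤ r) :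
    (x.n = x'.n ∧ n0 ≤ x.n) ∨ (x.n < n0 ∧ x'.n < n0) := by
  by_cases h : x.n = x'.n
  · by_cases h2 : n0 ≤ x.n
    · exact Or.inl ⟨h, h2⟩
    · exact Or.inr ⟨by omega, by omega⟩
  · right
    unfold D at hD
    rw [if_neg h] at hD
    have h1 := le_t x.n
    have h2 := le_t x'.n
    omega

theorem Ln_mono : Monotone Ln := fun n m h => Nat.mul_le_mul (by omega) (t_mono h)

theorem t_le_Ln (n : ℕ) : t n ≤ Ln n := Nat.le_mul_of_pos_left _ (by omega)

theorem D_small (n0 : ℕ) (x x' : XX) (h : x.n < n0) (h' : x'.n < n0) (i j : Bool) :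
    D t (sh i x) (sh j x') ≤ 6 * Ln n0 := by
  have e1 : D t (sh i x) (sh j x') ≤ nm (2 * Ln x.n) (sh i x).a x.b + t x.n + t x'.n +
      nm (2 * Ln x'.n) (sh j x').a x'.b := by
    unfold D
    split_ifs with h1
    · have h2 := (sh j x').ha
      rw [← h1] at h2
      have h3 := cd_le_nm (b := (sh i x).b) (b' := (sh j x').b) (sh i x).ha h2
      have h4 : x.n = x'.n := h1
      have h5 : nm (2 * Ln x.n) (sh j x').a x'.b = nm (2 * Ln x'.n) (sh j x').a x'.b := by rw [h4]
      refine h3.trans ?_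
      show nm (2 * Ln x.n) (sh i x).a x.b + nm (2 * Ln x.n) (sh j x').a x'.b ≤ _
      omega
    · exact le_refl _
  have e2 : ∀ (x : XX) (i : Bool), x.n < n0 → nm (2 * Ln x.n) (sh i x).a x.b + t x.n ≤ 3 * Ln n0 := by
    intro x i h
    have h1 : Ln x.n ≤ Ln n0 := Ln_mono h.le
    have h2 := t_le_Ln x.n
    have h3 := x.hb
    have h4 := ht_le_t x.n x.a x.ha
    have h5 : cyc (2 * Ln x.n) (sh i x).a 0 ≤ Ln x.n := by
      unfold cyc; omega
    unfold nm
    omega
  have e3 := e2 x i h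
  have e4 := e2 x' j h'
  omega

theorem D_same (r : ℕ) (x x' : XX) (h : x.n = x'.n) (hr : dd x x' ≤ r) (hL : 2 * r < Ln x.n)
    (i : Bool) : D t (sh i x) (sh i x') ≤ D t x x' := by
  obtain ⟨n, a, b, ha, hb⟩ := x
  obtain ⟨n', a', b', ha', hb'⟩ := x'
  simp only at h
  subst h
  simp only [dd] at hr
  simp only at hL
  unfold D
  simp only [sh, if_true, cd]
  cases i
  · simp only [Bool.false_eq_true, if_false, add_zero]
    split_ifs
    · exact le_refl _
    · unfold cyc; omega
  · simp only [if_true]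
    by_cases h1 : a = a'
    · subst h1; simp
    · rw [if_neg (by omega), if_neg h1]
      unfold cyc; omega

theorem D_cross (r : ℕ) (x x' : XX) (h : x.n = x'.n) (hD : D t x x' ≤ r) (hr : ¬ dd x x' ≤ r)
    (i j : Bool) (hij : i ≠ j) : D t (sh i x) (sh j x') ≤ D t x x' := by
  have h1 := (cyc_le_D x x' h).trans hD
  obtain ⟨n, a, b, ha, hb⟩ := x
  obtain ⟨n', a', b', ha', hb'⟩ := x'
  simp only at h h1
  subst h
  simp only [dd] at hr
  have hne : a ≠ a' := by rintro rfl; simp at hr
  unfold D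
  simp only [sh, if_true, cd]
  rw [if_neg hne]
  cases i <;> cases j
  · exact absurd rfl hij
  · simp only [Bool.false_eq_true, if_false, if_true, add_zero]
    rw [if_neg (by omega)]
    unfold cyc at h1 ⊢
    omega
  · simp only [Bool.false_eq_true, if_false, if_true, add_zero]
    rw [if_neg (by omega)]
    unfold cyc at h1 ⊢
    omega
  · exact absurd rfl hij

end Pool.Agent.H400R3.Roe
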