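import Mathlib

/-!
# Operators on `ℓ²`
-/

set_option autoImplicit false

open scoped InnerProduct
open ContinuousLinearMap

namespace Pool.Agent.H400R3.Roe

/-- the Hilbert space -/
noncomputable abbrev l2 (X : Type) := lp (fun _ : X => ℂ) 2

/-- basis vectors -/
noncomputable abbrev dl {X : Type} [DecidableEq X] (x : X) : l2 X := lp.single 2 x (1 : ℂ)

section basic

variable {X Y : Type}

theorem sumsq (f : l2 X) (s : Finset X) : ∑ i ∈ s, ‖f i‖ ^ 2 ≤ ‖f‖ ^ 2 := by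
  have := lp.sum_rpow_le_norm_rpow (p := 2) (by norm_num) f s
  simpa using this

theorem mem2 {f : X → ℂ} (C : ℝ) (h : ∀ s : Finset X, ∑ i ∈ s, ‖f i‖ ^ 2 ≤ C) : Memℓp f 2 := by
  apply memℓp_gen' (C := C)
  intro s
  simpa using h s

theorem norm2_le {f : l2 X} {C : ℝ} (hC : 0 ≤ C)
    (h : ∀ s : Finset X, ∑ i ∈ s, ‖f i‖ ^ 2 ≤ C ^ 2) : ‖f‖ ≤ C := by
  apply lp.norm_le_of_forall_sum_le (p := 2) (by norm_num) hC
  intro s
  simpa using h s

/-- operators from bounded maps -/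
theorem mk_op (F : (l2 X) → Y → ℂ) (hadd : ∀ f g y, F (f + g) y = F f y + F g y)
    (hsmul : ∀ (c : ℂ) f y, F (c • f) y = c * F f y) (C : ℝ) (hC : 0 ≤ C)
    (hb : ∀ f, ∀ s : Finset Y, ∑ y ∈ s, ‖F f y‖ ^ 2 ≤ (C * ‖f‖) ^ 2) :
    ∃ T : l2 X →L[ℂ] l2 Y, ‖T‖ ≤ C ∧ ∀ f y, (T f) y = F f y := by
  refine ⟨LinearMap.mkContinuous
    { toFun := fun f => ⟨F f, mem2 _ (hb f)⟩
      map_add' := fun f g => by
        apply lp.ext; funext y; exact hadd f g y
      map_smul' := fun c f => by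
        apply lp.ext; funext y; exact hsmul c f y } C (by
    intro f
    exact norm2_le (by positivity) (hb f)), ?_, ?_⟩
  · exact LinearMap.mkContinuous_norm_le _ hC _
  · intro f y
    rfl

variable [DecidableEq X] [DecidableEq Y]

theorem dl_apply (x y : X) : (dl x : l2 X) y = if y = x then 1 else 0 := by
  split_ifs with h
  · subst h
    exact lp.single_apply_self (E := fun _ : X => ℂ) 2 y (1 : ℂ)
  · exact lp.single_apply_ne (E := fun _ : X => ℂ) 2 x (1 : ℂ) h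

theorem inner_dl (y : X) (f : l2 X) : inner ℂ (dl y) f = f y := by
  rw [lp.inner_single_left]; simp

theorem inner_dl_right (y : X) (f : l2 X) : inner ℂ f (dl y) = (starRingEnd ℂ) (f y) := by
  rw [lp.inner_single_right]; simp

theorem norm_dl (x : X) : ‖(dl x : l2 X)‖ = 1 := by
  have := lp.norm_single (E := fun _ : X => ℂ) (p := 2) (by norm_num) x (1 : ℂ)
  simpa using this

theorem entry_le (T : l2 X →L[ℂ] l2 Y) (x : X) (y : Y) : ‖(T (dl x)) y‖ ≤ ‖T‖ := by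
  have h1 : ‖(T (dl x)) y‖ ≤ ‖T (dl x)‖ := lp.norm_apply_le_norm (by norm_num) _ _
  have h2 := T.le_opNorm (dl x)
  rw [norm_dl, mul_one] at h2
  exact h1.trans h2

/-- composition operator -/
theorem exists_comp (s : X → Y) (hs : Function.Injective s) :
    ∃ T : l2 Y →L[ℂ] l2 X, ‖T‖ ≤ 1 ∧ ∀ f x, (T f) x = f (s x) := by
  refine mk_op (fun f x => f (s x)) (fun f g y => rfl) (fun c f y => rfl) 1 (by norm_num) ?_
  intro f F
  rw [one_mul]
  have h := sumsq f (F.image s)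
  rw [Finset.sum_image hs.injOn] at h
  exact h

/-- diagonal operator -/
theorem exists_diag (z : X → ℂ) (hz : ∀ x, ‖z x‖ ≤ 1) :
    ∃ T : l2 X →L[ℂ] l2 X, ‖T‖ ≤ 1 ∧ ∀ f x, (T f) x = z x * f x := by
  refine mk_op (fun f x => z x * f x) (fun f g y => ?_) (fun c f y => ?_) 1 (by norm_num) ?_
  · show z y * (f y + g y) = _
    ring
  · show z y * (c * f y) = _
    ring
  · intro f F
    rw [one_mul]
    refine le_trans (Finset.sum_le_sum fun i _ => ?_) (sumsq f F)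
    rw [norm_mul]
    have h1 := hz i
    have h2 := norm_nonneg (z i)
    have h3 := norm_nonneg (f i)
    have h4 : ‖z i‖ * ‖f i‖ ≤ ‖f i‖ := by nlinarith
    have h5 : 0 ≤ ‖z i‖ * ‖f i‖ := by positivity
    nlinarith

/-- kernel operators: the Schur test -/
theorem exists_kernel (B : X → Finset X) (hB : ∀ x y, x ∈ B y → y ∈ B x) (N : ℕ)
    (hN : ∀ x, (B x).card ≤ N) (k : X → X → ℂ) (η : ℝ) (hη : 0 ≤ η) (hk : ∀ x y, ‖k x y‖ ≤ η) :
    ∃ T : l2 X →L[ℂ] l2 X, ‖T‖ ≤ N * η ∧ ∀ f x, (T f) x = ∑ y ∈ B x, k x y * f y := by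
  refine mk_op (fun f x => ∑ y ∈ B x, k x y * f y) (fun f g y => ?_) (fun c f y => ?_) (N * η)
    (by positivity) ?_
  · rw [← Finset.sum_add_distrib]
    refine Finset.sum_congr rfl fun i _ => ?_
    show k y i * (f i + g i) = _
    ring
  · rw [Finset.mul_sum]
    refine Finset.sum_congr rfl fun i _ => ?_
    show k y i * (c * f i) = _
    ring
  · intro f F
    have h1 : ∀ x, ‖∑ y ∈ B x, k x y * f y‖ ^ 2 ≤ N * η ^ 2 * ∑ y ∈ B x, ‖f y‖ ^ 2 := by
      intro x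
      have h2 : ‖∑ y ∈ B x, k x y * f y‖ ≤ ∑ y ∈ B x, η * ‖f y‖ := by
        refine (norm_sum_le _ _).trans (Finset.sum_le_sum fun y _ => ?_)
        rw [norm_mul]
        exact mul_le_mul_of_nonneg_right (hk x y) (norm_nonneg _)
      rw [← Finset.mul_sum] at h2
      have h3 : (∑ y ∈ B x, ‖f y‖) ^ 2 ≤ (B x).card * ∑ y ∈ B x, ‖f y‖ ^ 2 :=
        sq_sum_le_card_mul_sum_sq
      have h4 : ((B x).card : ℝ) ≤ N := by exact_mod_cast hN x
      have h5 : (0 : ℝ) ≤ ∑ y ∈ B x, ‖f y‖ ^ 2 := Finset.sum_nonneg fun i _ => by positivity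
      calc ‖∑ y ∈ B x, k x y * f y‖ ^ 2 ≤ (η * ∑ y ∈ B x, ‖f y‖) ^ 2 :=
            pow_le_pow_left₀ (norm_nonneg _) h2 2
        _ = η ^ 2 * (∑ y ∈ B x, ‖f y‖) ^ 2 := by ring
        _ ≤ η ^ 2 * ((B x).card * ∑ y ∈ B x, ‖f y‖ ^ 2) := by gcongr
        _ ≤ η ^ 2 * (N * ∑ y ∈ B x, ‖f y‖ ^ 2) := by gcongr
        _ = _ := by ring
    have h2 : ∑ x ∈ F, ∑ y ∈ B x, ‖f y‖ ^ 2 =
        ∑ y ∈ F.biUnion B, ∑ x ∈ F.filter (fun x => y ∈ B x), ‖f y‖ ^ 2 := by
      apply Finset.sum_comm'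
      intro x y
      simp only [Finset.mem_filter, Finset.mem_biUnion]
      constructor
      · rintro ⟨h1, h2⟩
        exact ⟨⟨h1, h2⟩, x, h1, h2⟩
      · rintro ⟨⟨h1, h2⟩, _⟩
        exact ⟨h1, h2⟩
    have h3 : ∑ y ∈ F.biUnion B, ∑ x ∈ F.filter (fun x => y ∈ B x), ‖f y‖ ^ 2 ≤
        ∑ y ∈ F.biUnion B, N * ‖f y‖ ^ 2 := by
      refine Finset.sum_le_sum fun y _ => ?_
      rw [Finset.sum_const, nsmul_eq_mul]
      have h4 : (F.filter (fun x => y ∈ B x)).card ≤ N := by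
        refine le_trans (Finset.card_le_card ?_) (hN y)
        intro x hx
        rw [Finset.mem_filter] at hx
        exact hB _ _ hx.2
      have h5 : ((F.filter (fun x => y ∈ B x)).card : ℝ) ≤ N := by exact_mod_cast h4
      gcongr
    calc ∑ x ∈ F, ‖∑ y ∈ B x, k x y * f y‖ ^ 2
        ≤ ∑ x ∈ F, N * η ^ 2 * ∑ y ∈ B x, ‖f y‖ ^ 2 := Finset.sum_le_sum fun x _ => h1 x
      _ = N * η ^ 2 * ∑ x ∈ F, ∑ y ∈ B x, ‖f y‖ ^ 2 := by rw [Finset.mul_sum]
      _ ≤ N * η ^ 2 * ∑ y ∈ F.biUnion B, N * ‖f y‖ ^ 2 := by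
          rw [h2]; gcongr
      _ = N ^ 2 * η ^ 2 * ∑ y ∈ F.biUnion B, ‖f y‖ ^ 2 := by
          rw [← Finset.mul_sum]; ring
      _ ≤ N ^ 2 * η ^ 2 * ‖f‖ ^ 2 := by gcongr; exact sumsq f _
      _ = _ := by ring

theorem kernel_entry {B : X → Finset X} {k : X → X → ℂ} {T : l2 X →L[ℂ] l2 X}
    (hT : ∀ f x, (T f) x = ∑ y ∈ B x, k x y * f y) (x y : X) (h : y ∉ B x → k x y = 0) :
    (T (dl y)) x = k x y := by
  rw [hT]
  simp only [dl_apply]
  simp only [mul_ite, mul_one, mul_zero]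
  rw [Finset.sum_ite_eq']
  split_ifs with h1
  · rfl
  · exact (h h1).symm

end basic

/-! ## Covering isometries -/

section cover

variable {X Y : Type} [DecidableEq X] [DecidableEq Y]
variable {s : X → Y} {W : l2 Y →L[ℂ] l2 X} (hW : ∀ f x, (W f) x = f (s x))

include hW

theorem W_dl_self (hs : Function.Injective s) (x : X) : W (dl (s x)) = dl x := by
  apply lp.ext
  funext x'
  rw [hW, dl_apply, dl_apply]
  by_cases h : x' = x
  · subst h; simp
  · rw [if_neg h, if_neg (fun h' => h (hs h'))]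

theorem W_dl_ne (y : Y) (h : ∀ x, s x ≠ y) : W (dl y) = 0 := by
  apply lp.ext
  funext x'
  rw [hW, dl_apply, if_neg (h x')]
  rfl

theorem adjW_apply (hs : Function.Injective s) (g : l2 X) (x : X) : ((W†) g) (s x) = g x := by
  rw [← inner_dl (s x), adjoint_inner_right, W_dl_self hW hs, inner_dl]

theorem adjW_apply_ne (g : l2 X) (y : Y) (h : ∀ x, s x ≠ y) : ((W†) g) y = 0 := by
  rw [← inner_dl y, adjoint_inner_right, W_dl_ne hW y h, inner_zero_left]

end cover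

/-! ## The abstract homomorphism -/

section abs

variable {H K : Type*} [NormedAddCommGroup H] [InnerProductSpace ℂ H] [CompleteSpace H]
  [NormedAddCommGroup K] [InnerProductSpace ℂ K] [CompleteSpace K]

/-- `a ↦ P a P* + Q a Q*` -/
noncomputable def amp (P Q : H →L[ℂ] K) (a : H →L[ℂ] H) : K →L[ℂ] K :=
  P ∘L a ∘L P† + Q ∘L a ∘L Q†

variable {P Q : H →L[ℂ] K}

theorem amp_add (a b : H →L[ℂ] H) : amp P Q (a + b) = amp P Q a + amp P Q b := by
  unfold amp
  rw [add_comp, comp_add, add_comp, comp_add]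
  abel

theorem amp_smul (c : ℂ) (a : H →L[ℂ] H) : amp P Q (c • a) = c • amp P Q a := by
  unfold amp
  rw [smul_comp, comp_smul, smul_comp, comp_smul, smul_add]

theorem amp_mul (hP : ∀ f, (P†) (P f) = f) (hQ : ∀ f, (Q†) (Q f) = f) (hPQ : ∀ f, (P†) (Q f) = 0)
    (hQP : ∀ f, (Q†) (P f) = 0) (a b : H →L[ℂ] H) : amp P Q (a * b) = amp P Q a * amp P Q b := by
  ext f
  simp only [amp, mul_apply_eq_comp, add_apply, comp_apply, map_add, hP, hQ, hPQ, hQP, map_zero,
    add_zero, zero_add]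

theorem amp_star (a : H →L[ℂ] H) : amp P Q (star a) = star (amp P Q a) := by
  simp only [amp, star_eq_adjoint, map_add, adjoint_comp, adjoint_adjoint]
  rfl

theorem amp_inj (hP : ∀ f, (P†) (P f) = f) (hQP : ∀ f, (Q†) (P f) = 0) {a b : H →L[ℂ] H}
    (h : amp P Q a = amp P Q b) : a = b := by
  ext f
  have h1 : ∀ c : H →L[ℂ] H, amp P Q c (P f) = P (c f) := by
    intro c
    simp only [amp, add_apply, comp_apply, hP, hQP, map_zero, add_zero]
  have h2 : P (a f) = P (b f) := by rw [← h1, ← h1, h]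
  rw [← hP (a f), h2, hP]

theorem amp_cont : Continuous (amp P Q) := by
  unfold amp
  have h1 : ∀ R : H →L[ℂ] K, Continuous fun a : H →L[ℂ] H => R ∘L a ∘L R† := by
    intro R
    have h2 : Continuous fun a : H →L[ℂ] H => a ∘L R† :=
      ((compL ℂ K H H).flip (R†)).continuous
    exact ((compL ℂ K H K) R).continuous.comp h2
  exact (h1 P).add (h1 Q)

theorem amp_compact {a : H →L[ℂ] H} (ha : IsCompactOperator a) : IsCompactOperator (amp P Q a) := by
  unfold amp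
  have h1 : ∀ R : H →L[ℂ] K, IsCompactOperator (R ∘L a ∘L R†) := by
    intro R
    have h2 : IsCompactOperator (a ∘L R†) := ha.comp_clm (R†)
    exact h2.clm_comp R
  exact (h1 P).add (h1 Q)

theorem amp_one (hsum : ∀ f, P ((P†) f) + Q ((Q†) f) = f) : amp P Q 1 = 1 := by
  ext f
  simp only [amp, add_apply, comp_apply, one_apply]
  exact hsum f

end abs

end Pool.Agent.H400R3.Roe
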