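import Pool.Agent.H400R3.Roe.Lp

/-!
# The two isometries attached to a trivialised double cover
-/

set_option autoImplicit false

open scoped InnerProduct
open ContinuousLinearMap

namespace Pool.Agent.H400R3.Roe

/-- the scalar `1/√2` -/
noncomputable def cc : ℂ := ((1 / Real.sqrt 2 : ℝ) : ℂ)

theorem cc_mul : cc * cc = 1 / 2 := by
  unfold cc
  rw [← Complex.ofReal_mul]
  have : (1 / Real.sqrt 2 : ℝ) * (1 / Real.sqrt 2) = 1 / 2 := by
    rw [div_mul_div_comm, Real.mul_self_sqrt (by norm_num)]
    norm_num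
  rw [this]
  norm_num

theorem conj_cc : (starRingEnd ℂ) cc = cc := by
  unfold cc
  exact Complex.conj_ofReal _

/-- signs -/
def sg (i : Bool) : ℂ := if i then -1 else 1

section PQ

variable {X Y : Type} [DecidableEq X] [DecidableEq Y]

theorem exists_PQ (s : Bool → X → Y) (hs : ∀ i, Function.Injective (s i))
    (hd : ∀ x x', s false x ≠ s true x') (z : X → ℂ) (hz : ∀ x, ‖z x‖ ≤ 1) :
    ∃ P Q : l2 X →L[ℂ] l2 Y,
      (∀ g j x, (P g) (s j x) = cc * g x) ∧
      (∀ g j x, (Q g) (s j x) = cc * sg j * z x * g x) ∧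
      (∀ f x, ((P†) f) x = cc * (f (s false x) + f (s true x))) ∧
      (∀ f x, ((Q†) f) x = cc * (starRingEnd ℂ) (z x) * (f (s false x) - f (s true x))) ∧
      (∀ i x, (P†) (dl (s i x)) = cc • dl x) ∧
      (∀ i x, (Q†) (dl (s i x)) = (cc * sg i * (starRingEnd ℂ) (z x)) • dl x) := by
  obtain ⟨W0, _, h0⟩ := exists_comp (s false) (hs false)
  obtain ⟨W1, _, h1⟩ := exists_comp (s true) (hs true)
  obtain ⟨Z, _, hZ⟩ := exists_diag z hz
  have hadj : ∀ f x, ((Z†) f) x = (starRingEnd ℂ) (z x) * f x := by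
    intro f x
    have h2 : Z (dl x) = z x • dl x := by
      apply lp.ext
      funext y
      rw [hZ]
      show z y * (dl x : l2 X) y = z x * (dl x : l2 X) y
      rw [dl_apply]
      split_ifs with h
      · subst h; rfl
      · simp
    rw [← inner_dl x, adjoint_inner_right, h2, inner_smul_left, inner_dl]
  have hPa : ∀ f x, (((cc • ((W0†) + (W1†)) : l2 X →L[ℂ] l2 Y)†) f) x =
      cc * (f (s false x) + f (s true x)) := by
    intro f x
    rw [map_smulₛₗ, conj_cc, map_add, adjoint_adjoint, adjoint_adjoint]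
    show cc * ((W0 f) x + (W1 f) x) = _
    rw [h0, h1]
  have hQa : ∀ f x, (((cc • (((W0†) - (W1†)) ∘L Z) : l2 X →L[ℂ] l2 Y)†) f) x =
      cc * (starRingEnd ℂ) (z x) * (f (s false x) - f (s true x)) := by
    intro f x
    rw [map_smulₛₗ, conj_cc, adjoint_comp, map_sub, adjoint_adjoint, adjoint_adjoint]
    show cc * ((Z†) (W0 f - W1 f)) x = _
    rw [hadj]
    show cc * ((starRingEnd ℂ) (z x) * ((W0 f) x - (W1 f) x)) = _
    rw [h0, h1]
    ring
  have hv0 : ∀ g j x, ((W0†) g) (s j x) = if j then 0 else g x := by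
    intro g j x
    cases j
    · simpa using adjW_apply h0 (hs false) g x
    · simpa using adjW_apply_ne h0 g (s true x) (fun x' => hd x' x)
  have hv1 : ∀ g j x, ((W1†) g) (s j x) = if j then g x else 0 := by
    intro g j x
    cases j
    · simpa using adjW_apply_ne h1 g (s false x) (fun x' => (hd x x').symm)
    · simpa using adjW_apply h1 (hs true) g x
  refine ⟨cc • ((W0†) + (W1†)), cc • (((W0†) - (W1†)) ∘L Z), ?_, ?_, hPa, hQa, ?_, ?_⟩
  · intro g j x
    show cc * (((W0†) g) (s j x) + ((W1†) g) (s j x)) = _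
    rw [hv0, hv1]
    cases j <;> simp
  · intro g j x
    show cc * (((W0†) (Z g)) (s j x) - ((W1†) (Z g)) (s j x)) = _
    rw [hv0, hv1, hZ]
    cases j
    · simp [sg]; ring
    · simp [sg]; ring
  · intro i x
    apply lp.ext
    funext y
    rw [hPa]
    show _ = cc * (dl x : l2 X) y
    rw [dl_apply, dl_apply, dl_apply]
    cases i
    · rw [if_neg (show ¬ s true y = s false x from (hd x y).symm), add_zero]
      by_cases h : y = x
      · subst h; simp
      · rw [if_neg h, if_neg (fun h' => h (hs _ h'))]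
    · rw [if_neg (show ¬ s false y = s true x from hd y x), zero_add]
      by_cases h : y = x
      · subst h; simp
      · rw [if_neg h, if_neg (fun h' => h (hs _ h'))]
  · intro i x
    apply lp.ext
    funext y
    rw [hQa]
    show _ = (cc * sg i * (starRingEnd ℂ) (z x)) * (dl x : l2 X) y
    rw [dl_apply, dl_apply, dl_apply]
    cases i
    · rw [if_neg (show ¬ s true y = s false x from (hd x y).symm), sub_zero]
      by_cases h : y = x
      · subst h; simp [sg]
      · rw [if_neg h, if_neg (fun h' => h (hs _ h'))]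
        simp
    · rw [if_neg (show ¬ s false y = s true x from hd y x), zero_sub]
      by_cases h : y = x
      · subst h; simp [sg]
      · rw [if_neg h, if_neg (fun h' => h (hs _ h'))]
        simp

variable {s : Bool → X → Y} {z : X → ℂ} {P Q : l2 X →L[ℂ] l2 Y}

omit [DecidableEq X] [DecidableEq Y] in
theorem PQ_rel (hz : ∀ x, z x * (starRingEnd ℂ) (z x) = 1)
    (hcov : ∀ y, ∃ j x, s j x = y)
    (h1 : ∀ g j x, (P g) (s j x) = cc * g x)
    (h2 : ∀ g j x, (Q g) (s j x) = cc * sg j * z x * g x)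
    (h3 : ∀ f x, ((P†) f) x = cc * (f (s false x) + f (s true x)))
    (h4 : ∀ f x, ((Q†) f) x = cc * (starRingEnd ℂ) (z x) * (f (s false x) - f (s true x))) :
    (∀ f, (P†) (P f) = f) ∧ (∀ f, (Q†) (Q f) = f) ∧ (∀ f, (P†) (Q f) = 0) ∧
    (∀ f, (Q†) (P f) = 0) ∧ (∀ f, P ((P†) f) + Q ((Q†) f) = f) := by
  have hc := cc_mul
  refine ⟨fun f => ?_, fun f => ?_, fun f => ?_, fun f => ?_, fun f => ?_⟩
  · apply lp.ext; funext x
    rw [h3, h1, h1]
    linear_combination (2 * f x) * hc
  · apply lp.ext; funext x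
    rw [h4, h2, h2]
    have := hz x
    simp only [sg, if_true, if_false, Bool.false_eq_true]
    linear_combination (2 * z x * (starRingEnd ℂ) (z x) * f x) * hc + f x * this
  · apply lp.ext; funext x
    rw [h3, h2, h2]
    show _ = (0 : ℂ)
    simp only [sg, if_true, if_false, Bool.false_eq_true]
    ring
  · apply lp.ext; funext x
    rw [h4, h1, h1]
    show _ = (0 : ℂ)
    ring
  · apply lp.ext; funext y
    obtain ⟨j, x, rfl⟩ := hcov y
    show (P ((P†) f)) (s j x) + (Q ((Q†) f)) (s j x) = _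
    rw [h1, h2, h3, h4]
    have := hz x
    cases j
    · simp only [sg, if_false, Bool.false_eq_true]
      linear_combination (f (s false x) + f (s true x) + z x * (starRingEnd ℂ) (z x) *
        (f (s false x) - f (s true x))) * hc + (1 / 2) * (f (s false x) - f (s true x)) * this
    · simp only [sg, if_true]
      linear_combination (f (s false x) + f (s true x) - z x * (starRingEnd ℂ) (z x) *
        (f (s false x) - f (s true x))) * hc - (1 / 2) * (f (s false x) - f (s true x)) * this

omit [DecidableEq X] [DecidableEq Y] in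
theorem amp_entry [DecidableEq X] [DecidableEq Y]
    (h1 : ∀ g j x, (P g) (s j x) = cc * g x)
    (h2 : ∀ g j x, (Q g) (s j x) = cc * sg j * z x * g x)
    (h5 : ∀ i x, (P†) (dl (s i x)) = cc • dl x)
    (h6 : ∀ i x, (Q†) (dl (s i x)) = (cc * sg i * (starRingEnd ℂ) (z x)) • dl x)
    (T : l2 X →L[ℂ] l2 X) (i j : Bool) (x x' : X) :
    (amp P Q T (dl (s i x))) (s j x') =
      1 / 2 * (1 + sg i * sg j * (z x' * (starRingEnd ℂ) (z x))) * (T (dl x)) x' := by
  unfold amp
  show (P (T ((P†) (dl (s i x))))) (s j x') + (Q (T ((Q†) (dl (s i x))))) (s j x') = _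
  rw [h5, h6, h1, h2, map_smul, map_smul]
  show cc * (cc * (T (dl x)) x') + cc * sg j * z x' *
    ((cc * sg i * (starRingEnd ℂ) (z x)) * (T (dl x)) x') = _
  linear_combination ((T (dl x)) x' + sg j * z x' * sg i * (starRingEnd ℂ) (z x) *
    (T (dl x)) x') * cc_mul

end PQ

end Pool.Agent.H400R3.Roe
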