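import Pool.Agent.H400R3.Roe.Space

/-!
# Parameters
-/

set_option autoImplicit false

namespace Pool.Agent.H400R3.Roe

/-- a fast growing sequence -/
def G : ℕ → ℕ
  | 0 => 1
  | e + 1 => 100 * (e + 2) ^ 6 * (G e + 1) ^ 4

lemma G_succ (e : ℕ) : G (e + 1) = 100 * (e + 2) ^ 6 * (G e + 1) ^ 4 := rfl

lemma G_pos (e : ℕ) : 0 < G e := by
  cases e with
  | zero => simp [G]
  | succ e => rw [G_succ]; positivity

lemma G_lt (e : ℕ) : G e < G (e + 1) := by
  rw [G_succ]
  have h1 : 1 ≤ (e + 2) ^ 6 := Nat.one_le_pow _ _ (by omega)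
  have h2 : G e + 1 ≤ (G e + 1) ^ 4 := Nat.le_self_pow (by norm_num) _
  nlinarith

lemma G_mono : Monotone G := monotone_nat_of_le_succ fun e => (G_lt e).le

lemma le_G (e : ℕ) : e < G e := by
  induction e with
  | zero => simp [G]
  | succ e ih => exact lt_of_le_of_lt ih (G_lt e)

/-- scale index of the `n`-th component -/
def bs (n : ℕ) : ℕ := (n + 1) ^ 2

/-- spacing of the teeth in the `i`-th cluster -/
def sp (n i : ℕ) : ℕ := G (bs n + i)

/-- length of the teeth in the `i`-th cluster -/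
def A (n i : ℕ) : ℕ := n * sp n i

/-- distance of consecutive clusters -/
def t (n : ℕ) : ℕ := G (bs n + n + 1)

/-- length of the `n`-th cycle -/
def Ln (n : ℕ) : ℕ := (n + 1) * t n

/-- height of the tooth at `a` -/
def ht (n a : ℕ) : ℕ :=
  if sp n (a / t n) ∣ (a % t n) ∧ a % t n ≤ A n (a / t n) then A n (a / t n) else 0

/-- the height function of the double cover -/
def ht2 (n a : ℕ) : ℕ := ht n (a % Ln n)

lemma t_pos (n : ℕ) : 0 < t n := G_pos _
lemma sp_pos (n i : ℕ) : 0 < sp n i := G_pos _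

lemma le_t (n : ℕ) : n ≤ t n := by
  have h := le_G (bs n + n + 1)
  have h2 : t n = G (bs n + n + 1) := rfl
  omega

lemma bs_succ (n : ℕ) : bs (n + 1) = bs n + 2 * n + 3 := by unfold bs; ring

lemma bs_mono : Monotone bs := monotone_nat_of_le_succ fun n => by rw [bs_succ]; omega

lemma t_mono : Monotone t := fun n m h => G_mono (by have := bs_mono h; omega)

/-- basic polynomial growth estimate -/
lemma big (e : ℕ) (k : ℕ) (hk : k ≤ e + 2) :
    100 * k ^ 3 * (G e + 1) ^ 2 ≤ G (e + 1) := by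
  rw [G_succ]
  have h1 : k ^ 3 ≤ (e + 2) ^ 6 := by
    calc k ^ 3 ≤ (e + 2) ^ 3 := Nat.pow_le_pow_left hk 3
      _ ≤ (e + 2) ^ 6 := Nat.pow_le_pow_right (by omega) (by norm_num)
  have h2 : (G e + 1) ^ 2 ≤ (G e + 1) ^ 4 := Nat.pow_le_pow_right (by omega) (by norm_num)
  exact Nat.mul_le_mul (Nat.mul_le_mul_left _ h1) h2

lemma n_le_bs (n : ℕ) : n + 1 ≤ bs n := by unfold bs; nlinarith

/-- (P2) all teeth are much shorter than the distance of clusters -/
lemma A_lt_t {n i : ℕ} (hi : i ≤ n) : 100 * (n + 1) ^ 2 * A n i + 100 * (n + 1) ^ 2 ≤ t n := by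
  have h1 : sp n i ≤ G (bs n + n) := G_mono (by omega)
  have h2 := big (bs n + n) (n + 1) (by have := n_le_bs n; omega)
  have h3 : t n = G (bs n + n + 1) := rfl
  rw [h3]
  refine le_trans ?_ h2
  set g := G (bs n + n)
  have h4 : A n i ≤ n * g := Nat.mul_le_mul_left _ h1
  calc 100 * (n + 1) ^ 2 * A n i + 100 * (n + 1) ^ 2
      ≤ 100 * (n + 1) ^ 2 * (n * g) + 100 * (n + 1) ^ 2 := by gcongr
    _ = 100 * (n + 1) ^ 2 * (n * g + 1) := by ring
    _ ≤ 100 * (n + 1) ^ 2 * ((n + 1) * (g + 1)) := by gcongr; nlinarith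
    _ ≤ 100 * (n + 1) ^ 2 * ((n + 1) * (g + 1) ^ 2) := by
        gcongr
        exact Nat.le_self_pow (by norm_num) _
    _ = 100 * (n + 1) ^ 3 * (g + 1) ^ 2 := by ring

lemma A_lt_t' {n i : ℕ} (hi : i ≤ n) : A n i < t n := by
  have h := A_lt_t hi
  have h1 : 1 ≤ (n + 1) ^ 2 := Nat.one_le_pow _ _ (by omega)
  nlinarith

/-- (P1) the spacing of larger clusters is much larger -/
lemma sp_lt_sp {n i m j : ℕ} (hi : i ≤ n) (h : n < m ∨ (n = m ∧ i < j)) :
    100 * (n + 1) ^ 2 * A n i < sp m j := by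
  have h0 : bs n + i + 1 ≤ bs m + j := by
    rcases h with h | ⟨rfl, h⟩
    · have h1 : bs (n + 1) ≤ bs m := bs_mono h
      rw [bs_succ] at h1
      omega
    · omega
  have h1 : G (bs n + i + 1) ≤ sp m j := G_mono h0
  have h2 := big (bs n + i) (n + 1) (by have := n_le_bs n; omega)
  refine lt_of_lt_of_le ?_ (h2.trans h1)
  have h3 : A n i = n * G (bs n + i) := rfl
  rw [h3]
  set g := G (bs n + i)
  calc 100 * (n + 1) ^ 2 * (n * g) < 100 * (n + 1) ^ 2 * ((n + 1) * (g + 1)) := by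
        apply Nat.mul_lt_mul_of_pos_left _ (by positivity)
        nlinarith
    _ ≤ 100 * (n + 1) ^ 2 * ((n + 1) * (g + 1) ^ 2) := by
        gcongr
        exact Nat.le_self_pow (by norm_num) _
    _ = 100 * (n + 1) ^ 3 * (g + 1) ^ 2 := by ring

lemma ht_le_t (n a : ℕ) (ha : a < Ln n) : ht n a ≤ t n := by
  unfold ht
  split_ifs
  · have : a / t n ≤ n := by
      have h1 : a / t n < n + 1 := by
        rw [Nat.div_lt_iff_lt_mul (t_pos n)]; exact ha
      omega
    exact (A_lt_t' this).le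
  · exact Nat.zero_le _

lemma Ln_pos (n : ℕ) : 0 < Ln n := Nat.mul_pos (by omega) (t_pos n)

lemma ht2_le_t (n a : ℕ) : ht2 n a ≤ t n := ht_le_t n _ (Nat.mod_lt _ (Ln_pos n))

lemma ht_cluster {n i u : ℕ} (hi : i ≤ n) (hu : u ≤ n) : ht n (i * t n + u * sp n i) = A n i := by
  have h1 : u * sp n i ≤ A n i := Nat.mul_le_mul_right _ hu
  have h2 : u * sp n i < t n := lt_of_le_of_lt h1 (A_lt_t' hi)
  have h3 : (i * t n + u * sp n i) / t n = i := by
    rw [mul_comm, Nat.mul_add_div (t_pos n), Nat.div_eq_of_lt h2, add_zero]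
  have h4 : (i * t n + u * sp n i) % t n = u * sp n i := by
    rw [mul_comm, Nat.mul_add_mod, Nat.mod_eq_of_lt h2]
  unfold ht
  rw [h3, h4, if_pos ⟨Dvd.intro_left u rfl, h1⟩]

lemma cluster_lt {n i u : ℕ} (hi : i ≤ n) (hu : u ≤ n) : i * t n + u * sp n i < Ln n := by
  have h1 : u * sp n i ≤ A n i := Nat.mul_le_mul_right _ hu
  have h2 : u * sp n i < t n := lt_of_le_of_lt h1 (A_lt_t' hi)
  unfold Ln
  have : (i + 1) * t n ≤ (n + 1) * t n := Nat.mul_le_mul_right _ (by omega)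
  nlinarith

/-- a tooth of the double cover -/
lemma tooth {m a : ℕ} (h : 1 ≤ ht2 m a) : sp m (a / t m % (m + 1)) ∣ a % t m ∧
    a % t m ≤ A m (a / t m % (m + 1)) ∧ ht2 m a = A m (a / t m % (m + 1)) := by
  have h1 : a % Ln m / t m = a / t m % (m + 1) := by
    unfold Ln
    rw [mul_comm]
    exact Nat.mod_mul_right_div_self a (t m) (m + 1)
  have h2 : a % Ln m % t m = a % t m := by
    unfold Ln; exact Nat.mod_mod_of_dvd a (Dvd.intro_left _ rfl)
  have h3 : ht2 m a = if sp m (a / t m % (m + 1)) ∣ a % t m ∧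
      a % t m ≤ A m (a / t m % (m + 1)) then A m (a / t m % (m + 1)) else 0 := by
    unfold ht2 ht
    rw [h1, h2]
  rw [h3] at h
  split_ifs at h with h4
  · exact ⟨h4.1, h4.2, by rw [h3, if_pos h4]⟩
  · omega

/-- the points of small clusters and small components -/
def Small (n i : ℕ) : Finset (ℕ × ℕ × ℕ) :=
  (Finset.range n).biUnion (fun m => ({m} : Finset ℕ) ×ˢ (Finset.range (2 * Ln m) ×ˢ
    Finset.range (t m + 1))) ∪
  (Finset.range i).biUnion (fun j => ({n} : Finset ℕ) ×ˢ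
    ((Finset.Icc (j * t n) (j * t n + A n j) ∪
      Finset.Icc (j * t n + Ln n) (j * t n + A n j + Ln n)) ×ˢ Finset.range (A n j + 1)))

lemma card_Small {n i : ℕ} (hn : 1 ≤ n) (hi : i ≤ n) : (Small n i).card ≤ sp n i := by
  obtain ⟨e, he⟩ : ∃ e, bs n + i = e + 1 := ⟨bs n + i - 1, by have := n_le_bs n; omega⟩
  set g := G e with hg
  have hsp : sp n i = G (e + 1) := by unfold sp; rw [he]
  have h1 : ((Finset.range n).biUnion (fun m => ({m} : Finset ℕ) ×ˢ (Finset.range (2 * Ln m) ×ˢ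
    Finset.range (t m + 1)))).card ≤ n * (2 * n * g * (g + 1)) := by
    refine (Finset.card_biUnion_le).trans ((Finset.sum_le_card_nsmul _ _ (2 * n * g * (g + 1))
      ?_).trans (by rw [Finset.card_range, smul_eq_mul]))
    intro m hm
    rw [Finset.mem_range] at hm
    simp only [Finset.card_product, Finset.card_singleton, Finset.card_range, one_mul]
    have h2 : t m ≤ g := by
      apply G_mono
      have : bs (m + 1) ≤ bs n := bs_mono hm
      rw [bs_succ] at this
      omega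
    have h3 : Ln m ≤ n * g := Nat.mul_le_mul (by omega) h2
    calc 2 * Ln m * (t m + 1) ≤ 2 * (n * g) * (g + 1) := by gcongr
      _ = 2 * n * g * (g + 1) := by ring
  have h2 : ((Finset.range i).biUnion (fun j => ({n} : Finset ℕ) ×ˢ
    ((Finset.Icc (j * t n) (j * t n + A n j) ∪
      Finset.Icc (j * t n + Ln n) (j * t n + A n j + Ln n)) ×ˢ
        Finset.range (A n j + 1)))).card ≤ n * (2 * (n * g + 1) ^ 2) := by
    refine (Finset.card_biUnion_le).trans ((Finset.sum_le_card_nsmul _ _ (2 * (n * g + 1) ^ 2)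
      ?_).trans (by rw [Finset.card_range, smul_eq_mul]; exact Nat.mul_le_mul_right _ hi))
    intro j hj
    rw [Finset.mem_range] at hj
    simp only [Finset.card_product, Finset.card_singleton, Finset.card_range, one_mul]
    have h3 : A n j ≤ n * g := by
      refine Nat.mul_le_mul_left _ (G_mono ?_)
      omega
    have h4 := Finset.card_union_le (Finset.Icc (j * t n) (j * t n + A n j))
      (Finset.Icc (j * t n + Ln n) (j * t n + A n j + Ln n))
    simp only [Nat.card_Icc] at h4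
    have h5 : (Finset.Icc (j * t n) (j * t n + A n j) ∪
      Finset.Icc (j * t n + Ln n) (j * t n + A n j + Ln n)).card ≤ 2 * (n * g + 1) := by omega
    calc _ ≤ 2 * (n * g + 1) * (n * g + 1) := Nat.mul_le_mul h5 (by omega)
      _ = 2 * (n * g + 1) ^ 2 := by ring
  have h3 : (Small n i).card ≤ n * (2 * n * g * (g + 1)) + n * (2 * (n * g + 1) ^ 2) :=
    (Finset.card_union_le _ _).trans (add_le_add h1 h2)
  have h4 := big e n (by have := n_le_bs n; omega)
  rw [hsp]
  refine h3.trans (le_trans ?_ h4)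
  have h5 : n * g + 1 ≤ n * (g + 1) := by nlinarith
  have h6 : (n * g + 1) ^ 2 ≤ (n * (g + 1)) ^ 2 := Nat.pow_le_pow_left h5 2
  have h7 : n * (2 * n * g * (g + 1)) ≤ 2 * n ^ 3 * (g + 1) ^ 2 := by
    have h8 : n ^ 2 ≤ n ^ 3 := Nat.pow_le_pow_right hn (by norm_num)
    calc n * (2 * n * g * (g + 1)) = 2 * n ^ 2 * (g * (g + 1)) := by ring
      _ ≤ 2 * n ^ 3 * ((g + 1) * (g + 1)) := by gcongr; omega
      _ = 2 * n ^ 3 * (g + 1) ^ 2 := by ring
  calc n * (2 * n * g * (g + 1)) + n * (2 * (n * g + 1) ^ 2)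
      ≤ 2 * n ^ 3 * (g + 1) ^ 2 + n * (2 * (n * (g + 1)) ^ 2) := by gcongr
    _ = 4 * (n ^ 3 * (g + 1) ^ 2) := by ring
    _ ≤ 100 * n ^ 3 * (g + 1) ^ 2 := by
      rw [mul_assoc]; exact Nat.mul_le_mul_right _ (by norm_num)

end Pool.Agent.H400R3.Roe
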