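import Pool.Agent.H400R3.Roe.Cover

/-!
# The embedding of uniform Roe algebras
-/

set_option autoImplicit false

open scoped InnerProduct
open ContinuousLinearMap Classical

namespace Pool.Agent.H400R3.Roe

/-- finite propagation -/
def FP {N : ℕ → ℕ} {H : ℕ → ℕ → ℕ} (T : l2 (Pt N H) →L[ℂ] l2 (Pt N H)) : Prop :=
  ∃ r : ℕ, ∀ x x' : Pt N H, r < D t x x' → (T (lp.single 2 x (1 : ℂ))) x' = 0

/-- the small error -/
noncomputable def err (T : l2 XX →L[ℂ] l2 XX) (r n0 : ℕ) (x' x : XX) : ℂ :=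
  if (x.n = x'.n ∧ n0 ≤ x.n) ∧ D t x x' ≤ r then
    (zz x' * (starRingEnd ℂ) (zz x) - sgn r x x') * (T (dl x)) x' else 0

theorem err_le (T : l2 XX →L[ℂ] l2 XX) (r n0 : ℕ) (x' x : XX) :
    ‖err T r n0 x' x‖ ≤ Real.pi * r / Ln n0 * ‖T‖ := by
  have hL : ∀ n, (0 : ℝ) < Ln n := fun n => by exact_mod_cast Ln_pos n
  have hpi := Real.pi_pos
  unfold err
  split_ifs with h
  · rw [norm_mul]
    have h1 := phase_close r x x' h.1.1 h.2
    have h2 : (Ln n0 : ℝ) ≤ Ln x.n := by exact_mod_cast Ln_mono h.1.2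
    have h3 : Real.pi * r / Ln x.n ≤ Real.pi * r / Ln n0 := by
      have := hL n0
      gcongr
    exact mul_le_mul (h1.trans h3) (entry_le T x x') (norm_nonneg _)
      (div_nonneg (by positivity) (hL n0).le)
  · rw [norm_zero]
    exact mul_nonneg (div_nonneg (by positivity) (hL n0).le) (norm_nonneg _)

theorem approx (P Q : l2 XX →L[ℂ] l2 YY)
    (h1 : ∀ g j x, (P g) (sh j x) = cc * g x)
    (h2 : ∀ g j x, (Q g) (sh j x) = cc * sg j * zz x * g x)
    (h5 : ∀ i x, (P†) (dl (sh i x)) = cc • dl x)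
    (h6 : ∀ i x, (Q†) (dl (sh i x)) = (cc * sg i * (starRingEnd ℂ) (zz x)) • dl x)
    (T : l2 XX →L[ℂ] l2 XX) (r : ℕ)
    (hT : ∀ x x', r < D t x x' → (T (dl x)) x' = 0) (ε : ℝ) (hε : 0 < ε) :
    ∃ S : l2 YY →L[ℂ] l2 YY, FP S ∧ ‖amp P Q T - S‖ < ε := by
  obtain ⟨P', Q', -, q2, -, -, -, q6⟩ :=
    exists_PQ sh sh_inj sh_disj (fun _ => (1 : ℂ)) (fun x => by simp)
  set N : ℕ := (4 * r + 1) * (3 * r + 2) + (r + 1) * ((4 * r + 1) * (r + 1)) with hN
  set C : ℝ := ‖Q'‖ * ‖Q'‖ * (N * (Real.pi * r * ‖T‖)) with hC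
  obtain ⟨n1, hn1⟩ := exists_nat_gt (C / ε)
  set n0 : ℕ := n1 + 2 * r + 1 with hn0
  have hL0 : (0 : ℝ) < Ln n0 := by exact_mod_cast Ln_pos n0
  have hLn : ∀ n, n ≤ Ln n := fun n => (le_t n).trans (t_le_Ln n)
  obtain ⟨E, hE1, hE2⟩ := exists_kernel
    (B := fun x : XX => (ulf (N := Ln) (H := ht) (Θ := t) le_t r x).1.toFinset)
    (by
      intro x y h
      rw [Set.Finite.mem_toFinset] at h ⊢
      show D t x y ≤ r
      rw [D_comm]; exact h) N
    (by
      intro x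
      rw [← Set.ncard_eq_toFinset_card _ (ulf (N := Ln) (H := ht) (Θ := t) le_t r x).1]
      exact (ulf (N := Ln) (H := ht) (Θ := t) le_t r x).2)
    (err T r n0) (Real.pi * r / Ln n0 * ‖T‖)
    ((norm_nonneg _).trans (err_le T r n0 ⟨0, 0, 0, Ln_pos 0, Nat.zero_le _⟩
      ⟨0, 0, 0, Ln_pos 0, Nat.zero_le _⟩)) (err_le T r n0)
  have hE3 : ∀ x x', (E (dl x)) x' = err T r n0 x' x := by
    intro x x'
    apply kernel_entry hE2
    intro h
    rw [Set.Finite.mem_toFinset] at h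
    unfold err
    rw [if_neg]
    rintro ⟨_, h3⟩
    apply h
    show D t x' x ≤ r
    rw [D_comm]; exact h3
  have hent : ∀ i j x x', ((Q' ∘L E ∘L Q'†) (dl (sh i x))) (sh j x') =
      1 / 2 * (sg i * sg j) * err T r n0 x' x := by
    intro i j x x'
    show (Q' (E ((Q'†) (dl (sh i x))))) (sh j x') = _
    rw [q6, q2, map_smul]
    show cc * sg j * 1 * ((cc * sg i * (starRingEnd ℂ) 1) * (E (dl x)) x') = _
    rw [hE3, map_one]
    linear_combination (sg j * sg i * err T r n0 x' x) * cc_mul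
  refine ⟨amp P Q T - Q' ∘L E ∘L Q'†, ⟨r + 6 * Ln n0, ?_⟩, ?_⟩
  · intro y y' hy
    obtain ⟨i, x, rfl⟩ := sh_cov y
    obtain ⟨j, x', rfl⟩ := sh_cov y'
    show (amp P Q T (dl (sh i x))) (sh j x') - ((Q' ∘L E ∘L Q'†) (dl (sh i x))) (sh j x') = 0
    rw [hent, amp_entry h1 h2 h5 h6]
    by_cases hD : D t x x' ≤ r
    · rcases same_or_small r n0 (by omega) x x' hD with hs | hs
      · unfold err
        rw [if_pos ⟨hs, hD⟩]
        have e1 : 1 / 2 * (1 + sg i * sg j * (zz x' * (starRingEnd ℂ) (zz x))) * (T (dl x)) x' -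
            1 / 2 * (sg i * sg j) * ((zz x' * (starRingEnd ℂ) (zz x) - sgn r x x') *
              (T (dl x)) x') = 1 / 2 * (1 + sg i * sg j * sgn r x x') * (T (dl x)) x' := by ring
        rw [e1]
        have hL2 : 2 * r < Ln x.n := by
          have := hLn x.n
          omega
        unfold sgn
        by_cases hd : dd x x' ≤ r
        · rw [if_pos hd]
          by_cases hij : i = j
          · subst hij
            have := D_same r x x' hs.1 hd hL2 i
            omega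
          · have : sg i * sg j = -1 := by
              cases i <;> cases j <;> simp [sg] at hij ⊢
            rw [this]; ring
        · rw [if_neg hd]
          by_cases hij : i = j
          · subst hij
            have : sg i * sg i = 1 := by
              cases i <;> simp [sg]
            rw [this]; ring
          · have := D_cross r x x' hs.1 hD hd i j hij
            omega
      · have := D_small n0 x x' hs.1 hs.2 i j
        omega
    · rw [hT x x' (by omega)]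
      unfold err
      rw [if_neg (fun h => hD h.2)]
      ring
  · rw [sub_sub_cancel]
    have e1 : ‖Q' ∘L E ∘L Q'†‖ ≤ ‖Q'‖ * (‖E‖ * ‖Q'‖) := by
      refine (opNorm_comp_le _ _).trans ?_
      have : ‖E ∘L Q'†‖ ≤ ‖E‖ * ‖Q'‖ := by
        refine (opNorm_comp_le _ _).trans ?_
        rw [LinearIsometryEquiv.norm_map]
      gcongr
    have e2 : ‖Q'‖ * (‖E‖ * ‖Q'‖) ≤ C / Ln n0 := by
      calc ‖Q'‖ * (‖E‖ * ‖Q'‖) ≤ ‖Q'‖ * ((N * (Real.pi * r / Ln n0 * ‖T‖)) * ‖Q'‖) := by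
            gcongr
        _ = C / Ln n0 := by rw [hC]; ring
    refine lt_of_le_of_lt (e1.trans e2) ?_
    rw [div_lt_iff₀ hL0]
    rw [div_lt_iff₀ hε] at hn1
    have h3 : (n1 : ℝ) ≤ Ln n0 := by
      have := hLn n0
      exact_mod_cast (show n1 ≤ Ln n0 by omega)
    nlinarith

theorem main : ∃ Φ : (l2 XX →L[ℂ] l2 XX) → (l2 YY →L[ℂ] l2 YY),
    (∀ a b, Φ (a + b) = Φ a + Φ b) ∧ (∀ (c : ℂ) a, Φ (c • a) = c • Φ a) ∧
    (∀ a b, Φ (a * b) = Φ a * Φ b) ∧ (∀ a, Φ (star a) = star (Φ a)) ∧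
    Function.Injective Φ ∧ Φ 1 = 1 ∧ Continuous Φ ∧
    (∀ a : l2 XX →L[ℂ] l2 XX, IsCompactOperator a → IsCompactOperator (Φ a)) ∧
    (∀ T : l2 XX →L[ℂ] l2 XX, FP T → ∀ ε : ℝ, 0 < ε →
      ∃ S : l2 YY →L[ℂ] l2 YY, FP S ∧ ‖Φ T - S‖ < ε) := by
  obtain ⟨P, Q, h1, h2, h3, h4, h5, h6⟩ :=
    exists_PQ sh sh_inj sh_disj zz (fun x => (zz_norm x).le)
  obtain ⟨r1, r2, r3, r4, r5⟩ := PQ_rel zz_conj sh_cov h1 h2 h3 h4
  refine ⟨amp P Q, amp_add, amp_smul, amp_mul r1 r2 r3 r4, amp_star,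
    fun a b h => amp_inj r1 r4 h, amp_one r5, amp_cont, fun a ha => amp_compact ha, ?_⟩
  rintro T ⟨r, hT⟩ ε hε
  exact approx P Q h1 h2 h5 h6 T r hT ε hε

end Pool.Agent.H400R3.Roe
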