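import Pool.Agent.H400R3.Roe.Rigid

/-!
# The winding argument
-/

set_option autoImplicit false

namespace Pool.Agent.H400R3.Roe

/-- the base point of the `i`-th cluster -/
def qq (n i : ℕ) (hi : i ≤ n) : XX :=
  spine n (i * t n) (by simpa using cluster_lt (u := 0) hi (by omega))

section wind

variable (f : XX → YY) (Lc : ℕ) (hL : ∀ x x' : XX, D t x x' ≤ 1 → D t (f x) (f x') ≤ Lc)

/-- the image of the `i`-th base point is near the position `k * t n` of the double cycle -/
def Near (n i k : ℕ) (hi : i ≤ n) : Prop :=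
  k < 2 * (n + 1) ∧ k % (n + 1) = i ∧ (f (qq n i hi)).n = n ∧
    cyc (2 * Ln n) (f (qq n i hi)).a (k * t n) ≤ t n

include hL

lemma exists_near {M : ℕ} (hM : ∀ y, (f ⁻¹' {y}).Finite ∧ (f ⁻¹' {y}).ncard ≤ M) {n i : ℕ}
    (hi : i ≤ n) (hnL : Lc ≤ n) (hn1 : 1 ≤ n) (hn : M * (14 * Lc + 4) ≤ n) :
    ∃ k, Near f n i k hi := by
  obtain ⟨α, β, a', h1, h2, h3, h4, h5, h6, h7⟩ := near_cluster f Lc hL hM hi hnL hn1 hn
  have hf : f (qq n i hi) = ⟨n, α, β, h1, h2⟩ := h3
  have hk : a' / t n < 2 * (n + 1) := by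
    rw [Nat.div_lt_iff_lt_mul (t_pos n)]
    have h5 : 2 * Ln n = 2 * (n + 1) * t n := by unfold Ln; ring
    rw [← h5]; exact h4
  refine ⟨a' / t n, hk, h6, by rw [hf], ?_⟩
  have hfa : (f (qq n i hi)).a = α := by rw [hf]
  rw [hfa]
  have e1 := Nat.div_add_mod a' (t n)
  have e2 : a' / t n * t n < 2 * Ln n := by
    have h5 : 2 * Ln n = 2 * (n + 1) * t n := by unfold Ln; ring
    rw [h5]
    exact Nat.mul_lt_mul_of_pos_right hk (t_pos n)
  have e3 : cyc (2 * Ln n) a' (a' / t n * t n) ≤ A n i := by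
    rw [mul_comm] at e1
    unfold cyc
    omega
  have e4 := cyc_tri h1 h4 e2
  have k1 := A_lt_t (n := n) (i := i) hi
  have hsq : (n + 1) ≤ (n + 1) ^ 2 := Nat.le_self_pow (by norm_num) _
  have k4 : (n + 1) * A n i ≤ (n + 1) ^ 2 * A n i := Nat.mul_le_mul_right _ hsq
  have k5 : 2 * A n i * Lc ≤ 2 * A n i * (n + 1) := Nat.mul_le_mul_left _ (by omega)
  nlinarith

omit hL in
lemma cyc_near {n i j k l : ℕ} {hi : i ≤ n} {hj : j ≤ n} (h1 : Near f n i k hi)
    (h2 : Near f n j l hj) (hD : D t (f (qq n i hi)) (f (qq n j hj)) ≤ Lc * t n) :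
    cyc (2 * Ln n) (k * t n) (l * t n) ≤ (Lc + 2) * t n := by
  obtain ⟨k1, k2, k3, k4⟩ := h1
  obtain ⟨l1, l2, l3, l4⟩ := h2
  have hkt : k * t n < 2 * Ln n := by
    have h5 : 2 * Ln n = 2 * (n + 1) * t n := by unfold Ln; ring
    rw [h5]
    exact Nat.mul_lt_mul_of_pos_right k1 (t_pos n)
  have hlt : l * t n < 2 * Ln n := by
    have h5 : 2 * Ln n = 2 * (n + 1) * t n := by unfold Ln; ring
    rw [h5]
    exact Nat.mul_lt_mul_of_pos_right l1 (t_pos n)
  generalize f (qq n i hi) = y at *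
  generalize f (qq n j hj) = z at *
  obtain ⟨yn, ya, yb, yha, yhb⟩ := y
  obtain ⟨zn, za, zb, zha, zhb⟩ := z
  simp only at k3 l3 k4 l4
  subst k3
  subst l3
  simp only [D, if_true] at hD
  have h3 := (cyc_le_cd (N := 2 * Ln zn) (a := ya) (b := yb) (a' := za) (b' := zb)).trans hD
  have h4 := cyc_tri yha zha hlt
  have h5 := cyc_tri hkt yha hlt
  rw [cyc_comm _ _ ya] at h5
  have h6 : (Lc + 2) * t zn = Lc * t zn + 2 * t zn := by ring
  omega

lemma step_D {n i : ℕ} (hi : i + 1 ≤ n) :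
    D t (f (qq n i (by omega))) (f (qq n (i + 1) hi)) ≤ Lc * t n := by
  have h := cluster_lt (n := n) (i := i + 1) (u := 0) hi (by omega)
  have h2 : i * t n + t n < Ln n := by
    have : (i + 1) * t n = i * t n + t n := by ring
    omega
  have h1 := spine_step f Lc hL n (i * t n) (t n) h2
  have h3 : spine n (i * t n + t n) h2 = qq n (i + 1) hi := by
    unfold qq spine
    congr 1
    ring
  rw [h3] at h1
  exact h1

lemma wrap_D (n : ℕ) :
    D t (f (qq n n le_rfl)) (f (qq n 0 (Nat.zero_le _))) ≤ Lc * t n := by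
  have h0 : Ln n = n * t n + t n := by unfold Ln; ring
  have tp := t_pos n
  have h2 : n * t n + (t n - 1) < Ln n := by omega
  have h1 := spine_step f Lc hL n (n * t n) (t n - 1) h2
  have h3 := wrap_step f Lc hL n
  have h4 : spine n (n * t n + (t n - 1)) h2 = spine n (Ln n - 1) (by omega) := by
    unfold spine
    congr 1
    omega
  have h5 : spine n 0 (Ln_pos n) = qq n 0 (Nat.zero_le _) := by
    unfold qq spine
    congr 1
    ring
  rw [h4] at h1
  rw [h5] at h3
  have h6 := D_tri (Θ := t) (f (qq n n le_rfl)) (f (spine n (Ln n - 1) (by omega)))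
    (f (qq n 0 (Nat.zero_le _)))
  calc _ ≤ _ := h6
    _ ≤ Lc * (t n - 1) + Lc := add_le_add h1 h3
    _ = Lc * t n := by
      rw [← Nat.mul_succ, Nat.succ_eq_add_one, Nat.sub_add_cancel tp]

omit f hL in
lemma cyc_far {n k l : ℕ} (hn : Lc + 3 ≤ n) (h : k + n = l ∨ k + n + 2 = l) (hl : l < 2 * (n + 1)) :
    ¬ cyc (2 * Ln n) (k * t n) (l * t n) ≤ (Lc + 2) * t n := by
  intro hc
  have tp := t_pos n
  have h1 : (Lc + 3) * t n ≤ n * t n := Nat.mul_le_mul_right _ hn
  have h2 : (Lc + 3) * t n = (Lc + 2) * t n + t n := by ring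
  have h3 : 2 * Ln n = 2 * (n * t n) + 2 * t n := by unfold Ln; ring
  rcases h with rfl | rfl
  · have h4 : (k + n) * t n = k * t n + n * t n := by ring
    unfold cyc at hc
    rw [h4, h3] at hc
    omega
  · have h4 : (k + n + 2) * t n = k * t n + n * t n + 2 * t n := by ring
    unfold cyc at hc
    rw [h4, h3] at hc
    omega

/-- no Lipschitz uniformly finite-to-one map exists -/
lemma no_map {M : ℕ} (hM : ∀ y, (f ⁻¹' {y}).Finite ∧ (f ⁻¹' {y}).ncard ≤ M) : False := by
  obtain ⟨n, hn1, hn2⟩ : ∃ n, Lc + 3 ≤ n ∧ M * (14 * Lc + 4) ≤ n :=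
    ⟨M * (14 * Lc + 4) + (Lc + 3), by omega, by omega⟩
  have hex : ∀ i (hi : i ≤ n), ∃ k, Near f n i k hi := fun i hi =>
    exists_near f Lc hL hM hi (by omega) (by omega) hn2
  -- two consecutive positions are on the same sheet
  have hstep : ∀ i (hi : i + 1 ≤ n) k l, Near f n i k (by omega) → Near f n (i + 1) l hi →
      l = k + 1 := by
    intro i hi k l hk hl
    have h1 := cyc_near f Lc hk hl (step_D f Lc hL hi)
    have hk1 := hk.1
    have hk2 := hk.2.1
    have hl1 := hl.1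
    have hl2 := hl.2.1
    have e1 : k = i ∨ k = i + (n + 1) := by
      rcases lt_or_ge k (n + 1) with h | h
      · left; rwa [Nat.mod_eq_of_lt h] at hk2
      · right
        rw [Nat.mod_eq_sub_mod h, Nat.mod_eq_of_lt (by omega)] at hk2
        omega
    have e2 : l = i + 1 ∨ l = i + 1 + (n + 1) := by
      rcases lt_or_ge l (n + 1) with h | h
      · left; rwa [Nat.mod_eq_of_lt h] at hl2
      · right
        rw [Nat.mod_eq_sub_mod h, Nat.mod_eq_of_lt (by omega)] at hl2
        omega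
    rcases e1 with rfl | rfl <;> rcases e2 with rfl | rfl
    · rfl
    · exact absurd h1 (cyc_far Lc hn1 (Or.inr (by omega)) hl1)
    · rw [cyc_comm] at h1
      exact absurd h1 (cyc_far Lc hn1 (Or.inl (by omega)) hk1)
    · omega
  obtain ⟨k0, hk0⟩ := hex 0 (Nat.zero_le _)
  have hall : ∀ i (hi : i ≤ n), Near f n i (k0 + i) hi := by
    intro i
    induction i with
    | zero => intro hi; simpa using hk0
    | succ i ih =>
      intro hi
      obtain ⟨l, hl⟩ := hex (i + 1) hi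
      have := hstep i hi (k0 + i) l (ih (by omega)) hl
      rw [this, add_assoc] at hl
      exact hl
  have h1 := cyc_near f Lc (hall n le_rfl) hk0 (wrap_D f Lc hL n)
  rw [cyc_comm] at h1
  exact cyc_far Lc hn1 (Or.inl rfl) (hall n le_rfl).1 h1

end wind

end Pool.Agent.H400R3.Roe
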