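import Mathlib

/-!
# Circular combs

`Pt N H`: points `(n, a, b)` with `a < N n` (position on the `n`-th cycle) and `b ≤ H n a`
(height on the tooth attached at `a`).
-/

set_option autoImplicit false

namespace Pool.Agent.H400R3.Roe

/-- distance on the cycle `ℤ/N` -/
def cyc (N a b : ℕ) : ℕ := min ((a - b) + (b - a)) (N - ((a - b) + (b - a)))

/-- distance on a circular comb -/
def cd (N a b a' b' : ℕ) : ℕ := if a = a' then (b - b') + (b' - b) else b + b' + cyc N a a'

/-- distance to the base point -/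
def nm (N a b : ℕ) : ℕ := cyc N a 0 + b

lemma cyc_comm (N a b : ℕ) : cyc N a b = cyc N b a := by unfold cyc; omega

lemma cyc_self (N a : ℕ) : cyc N a a = 0 := by unfold cyc; omega

lemma cyc_pos {N a b : ℕ} (ha : a < N) (hb : b < N) (h : a ≠ b) : 0 < cyc N a b := by
  unfold cyc; omega

lemma cyc_tri {N a b c : ℕ} (ha : a < N) (hb : b < N) (hc : c < N) :
    cyc N a c ≤ cyc N a b + cyc N b c := by
  unfold cyc; omega

lemma cd_comm (N a b a' b' : ℕ) : cd N a b a' b' = cd N a' b' a b := by
  unfold cd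
  rw [cyc_comm]
  split_ifs <;> omega

lemma cd_self (N a b : ℕ) : cd N a b a b = 0 := by
  unfold cd; simp

lemma cd_pos {N a b a' b' : ℕ} (ha : a < N) (ha' : a' < N) (h : a ≠ a' ∨ b ≠ b') :
    0 < cd N a b a' b' := by
  unfold cd
  split_ifs with h1
  · omega
  · have := cyc_pos ha ha' h1
    omega

lemma cyc_le_cd {N a b a' b' : ℕ} : cyc N a a' ≤ cd N a b a' b' := by
  unfold cd
  split_ifs with h1
  · subst h1; rw [cyc_self]; omega
  · omega

lemma cd_tri {N a b a' b' a'' b'' : ℕ} (ha : a < N) (ha' : a' < N) (ha'' : a'' < N) :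
    cd N a b a'' b'' ≤ cd N a b a' b' + cd N a' b' a'' b'' := by
  have h := cyc_tri ha ha' ha''
  unfold cd
  by_cases h1 : a = a'
  · subst h1
    by_cases h2 : a = a''
    · subst h2
      simp only [if_true]
      omega
    · simp only [if_true, h2, if_false]
      omega
  · by_cases h2 : a' = a''
    · subst h2
      simp only [if_true, h1, if_false]
      omega
    · by_cases h3 : a = a''
      · subst h3
        simp only [if_true, h1, h2, if_false]
        omega
      · simp only [h1, h2, h3, if_false]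
        omega

lemma nm_le {N a b a' b' : ℕ} (ha : a < N) (ha' : a' < N) :
    nm N a b ≤ cd N a b a' b' + nm N a' b' := by
  have h := cyc_tri ha ha' (show 0 < N by omega)
  unfold nm cd
  by_cases h1 : a = a'
  · subst h1
    simp only [if_true]
    omega
  · simp only [h1, if_false]
    omega

lemma cd_le_nm {N a b a' b' : ℕ} (ha : a < N) (ha' : a' < N) :
    cd N a b a' b' ≤ nm N a b + nm N a' b' := by
  have h := cyc_tri ha (show 0 < N by omega) ha'
  rw [cyc_comm N 0 a'] at h
  unfold nm cd
  split_ifs <;> omega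

/-- points of the space -/
@[ext] structure Pt (N : ℕ → ℕ) (H : ℕ → ℕ → ℕ) where
  n : ℕ
  a : ℕ
  b : ℕ
  ha : a < N n
  hb : b ≤ H n a

/-- a map `Θ` of gaps; the distance of two points -/
def D {N : ℕ → ℕ} {H : ℕ → ℕ → ℕ} (Θ : ℕ → ℕ) (p q : Pt N H) : ℕ :=
  if p.n = q.n then cd (N p.n) p.a p.b q.a q.b
  else nm (N p.n) p.a p.b + Θ p.n + Θ q.n + nm (N q.n) q.a q.b

section metric

variable {N : ℕ → ℕ} {H : ℕ → ℕ → ℕ} {Θ : ℕ → ℕ}

lemma D_self (p : Pt N H) : D Θ p p = 0 := by
  unfold D; simp [cd_self]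

lemma D_comm (p q : Pt N H) : D Θ p q = D Θ q p := by
  unfold D
  by_cases h : p.n = q.n
  · rw [if_pos h, if_pos h.symm, cd_comm, h]
  · rw [if_neg h, if_neg (Ne.symm h)]
    ring

lemma D_eq_zero (hΘ : ∀ n, n ≤ Θ n) {p q : Pt N H} (h : D Θ p q = 0) : p = q := by
  unfold D at h
  split_ifs at h with h1
  · have hq : q.a < N p.n := by rw [h1]; exact q.ha
    by_contra hne
    have : p.a ≠ q.a ∨ p.b ≠ q.b := by
      by_contra hcon
      push Not at hcon
      exact hne (Pt.ext h1 hcon.1 hcon.2)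
    have := cd_pos (b := p.b) (b' := q.b) p.ha hq this
    omega
  · have h2 := hΘ p.n
    have h3 := hΘ q.n
    omega

lemma D_tri (p q r : Pt N H) : D Θ p r ≤ D Θ p q + D Θ q r := by
  obtain ⟨n, a, b, ha, hb⟩ := p
  obtain ⟨n', a', b', ha', hb'⟩ := q
  obtain ⟨n'', a'', b'', ha'', hb''⟩ := r
  unfold D
  simp only
  by_cases h1 : n = n'
  · subst h1
    by_cases h2 : n = n''
    · subst h2
      simp only [if_true]
      exact cd_tri ha ha' ha''
    · simp only [if_true, h2, if_false]
      have := nm_le (b := b) (b' := b') ha ha'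
      omega
  · by_cases h2 : n' = n''
    · subst h2
      simp only [if_true, h1, if_false]
      have := nm_le (b := b'') (b' := b') ha'' ha'
      rw [cd_comm] at this
      omega
    · by_cases h3 : n = n''
      · subst h3
        simp only [if_true, h1, h2, if_false]
        have := cd_le_nm (b := b) (b' := b'') ha ha''
        omega
      · simp only [h1, h2, h3, if_false]
        omega

/-- the metric -/
@[reducible] def metric (N : ℕ → ℕ) (H : ℕ → ℕ → ℕ) (Θ : ℕ → ℕ) (hΘ : ∀ n, n ≤ Θ n) :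
    MetricSpace (Pt N H) where
  dist p q := (D Θ p q : ℝ)
  dist_self p := by simp [D_self]
  dist_comm p q := by rw [D_comm]
  dist_triangle p q r := by exact_mod_cast D_tri p q r
  eq_of_dist_eq_zero := by
    intro p q h
    exact D_eq_zero hΘ (by exact_mod_cast h)

/-- coordinates -/
def co (p : Pt N H) : ℕ × ℕ × ℕ := (p.n, p.a, p.b)

lemma co_inj : Function.Injective (co : Pt N H → ℕ × ℕ × ℕ) := by
  intro p q h
  simp only [co, Prod.mk.injEq] at h
  exact Pt.ext h.1 h.2.1 h.2.2

/-- positions near `a` on the cycle -/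
def near (N a R : ℕ) : Finset ℕ := Finset.Icc (a - R) (a + R) ∪ Finset.range R ∪ Finset.Ico (N - R) N

lemma card_near (N a R : ℕ) : (near N a R).card ≤ 4 * R + 1 := by
  have h1 := Finset.card_union_le (Finset.Icc (a - R) (a + R) ∪ Finset.range R)
    (Finset.Ico (N - R) N)
  have h2 := Finset.card_union_le (Finset.Icc (a - R) (a + R)) (Finset.range R)
  simp only [Nat.card_Icc, Finset.card_range, Nat.card_Ico] at h1 h2
  unfold near
  omega

lemma mem_near {N a a' R : ℕ} (ha : a < N) (ha' : a' < N) (h : cyc N a a' ≤ R) :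
    a' ∈ near N a R := by
  unfold cyc at h
  simp only [near, Finset.mem_union, Finset.mem_Icc, Finset.mem_range, Finset.mem_Ico]
  omega

/-- the coordinates of the points of the ball of radius `R` are in a finite set of bounded size -/
lemma ball_coords (hΘ : ∀ n, n ≤ Θ n) (p q : Pt N H) (R : ℕ) (h : D Θ p q ≤ R) :
    co q ∈ ({p.n} : Finset ℕ) ×ˢ (near (N p.n) p.a R ×ˢ (Finset.Icc (p.b - R) (p.b + R) ∪
      Finset.range (R + 1))) ∪
      (Finset.range (R + 1)).biUnion (fun m => ({m} : Finset ℕ) ×ˢ (near (N m) 0 R ×ˢ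
        Finset.range (R + 1))) := by
  obtain ⟨n, a, b, ha, hb⟩ := p
  obtain ⟨n', a', b', ha', hb'⟩ := q
  simp only [D] at h
  simp only [co, Finset.mem_union, Finset.mem_product, Finset.mem_singleton, Finset.mem_biUnion,
    Finset.mem_range, Finset.mem_Icc]
  by_cases h1 : n = n'
  · subst h1
    left
    simp only [if_true] at h
    have h2 := (cyc_le_cd (N := N n) (a := a) (b := b) (a' := a') (b' := b')).trans h
    refine ⟨rfl, mem_near ha ha' h2, ?_⟩
    unfold cd at h
    split_ifs at h
    · left; omega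
    · right; omega
  · right
    rw [if_neg h1] at h
    have h3 := hΘ n'
    unfold nm at h
    refine ⟨n', by omega, rfl, mem_near (by omega) ha' ?_, by omega⟩
    rw [cyc_comm]; omega

lemma ball_card (p : Pt N H) (R : ℕ) :
    (({p.n} : Finset ℕ) ×ˢ (near (N p.n) p.a R ×ˢ (Finset.Icc (p.b - R) (p.b + R) ∪
      Finset.range (R + 1))) ∪
      (Finset.range (R + 1)).biUnion (fun m => ({m} : Finset ℕ) ×ˢ (near (N m) 0 R ×ˢ
        Finset.range (R + 1)))).card ≤
      (4 * R + 1) * (3 * R + 2) + (R + 1) * ((4 * R + 1) * (R + 1)) := by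
  refine (Finset.card_union_le _ _).trans (add_le_add ?_ ?_)
  · rw [Finset.card_product, Finset.card_singleton, one_mul, Finset.card_product]
    refine Nat.mul_le_mul (card_near _ _ _) ?_
    have := Finset.card_union_le (Finset.Icc (p.b - R) (p.b + R)) (Finset.range (R + 1))
    simp only [Nat.card_Icc, Finset.card_range] at this
    omega
  · refine (Finset.card_biUnion_le).trans ?_
    refine (Finset.sum_le_card_nsmul _ _ ((4 * R + 1) * (R + 1)) ?_).trans ?_
    · intro m _
      rw [Finset.card_product, Finset.card_singleton, one_mul, Finset.card_product,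
        Finset.card_range]
      exact Nat.mul_le_mul_right _ (card_near _ _ _)
    · rw [Finset.card_range, smul_eq_mul]

/-- uniform local finiteness -/
lemma ulf (hΘ : ∀ n, n ≤ Θ n) (R : ℕ) (p : Pt N H) :
    {q : Pt N H | D Θ p q ≤ R}.Finite ∧ {q : Pt N H | D Θ p q ≤ R}.ncard ≤
      (4 * R + 1) * (3 * R + 2) + (R + 1) * ((4 * R + 1) * (R + 1)) := by
  have hmap : ∀ q ∈ {q : Pt N H | D Θ p q ≤ R}, co q ∈ ((({p.n} : Finset ℕ) ×ˢ
      (near (N p.n) p.a R ×ˢ (Finset.Icc (p.b - R) (p.b + R) ∪
      Finset.range (R + 1))) ∪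
      (Finset.range (R + 1)).biUnion (fun m => ({m} : Finset ℕ) ×ˢ (near (N m) 0 R ×ˢ
        Finset.range (R + 1))) : Finset (ℕ × ℕ × ℕ)) : Set (ℕ × ℕ × ℕ)) := fun q hq =>
    ball_coords hΘ p q R hq
  refine ⟨Set.Finite.of_injOn hmap co_inj.injOn (Finset.finite_toSet _), ?_⟩
  refine (Set.ncard_le_ncard_of_injOn co hmap co_inj.injOn (Finset.finite_toSet _)).trans ?_
  rw [Set.ncard_coe_finset]
  exact ball_card p R

end metric

end Pool.Agent.H400R3.Roe
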